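import Pool.Agent.Helper35_XQ.StmtAH
import Pool.Agent.Helper12_AEU.Img1

/-!
# Squad XQ, module AH_JKB: boundedness and measurability of the product of plane waves
-/

set_option autoImplicit false

namespace Pool.Agent.XQ.H81

open MeasureTheory Filter Topology Set

lemma kit_meas2 : Measurable fun p : ℝ × ℝ => AEU.H12.Kit p.1 p.2 := by
  unfold AEU.H12.Kit
  have h : Continuous fun z : (ℝ × ℝ) × ℝ => Real.exp (-(z.1.2 * Real.cosh z.2)) * Real.cos (z.1.1 * z.2) := by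
    fun_prop
  exact (h.stronglyMeasurable.integral_prod_right').measurable

lemma cosh_le_exp (x : ℝ) : Real.cosh x ≤ Real.exp |x| := by
  rw [← Real.cosh_abs, Real.cosh_eq]
  have h := Real.exp_le_exp.2 (neg_le_self (abs_nonneg x))
  linarith

lemma jkr_meas (m1 m2 : ℝ → ℝ) (h1 : Measurable m1) (h2 : Measurable m2) (b κ : ℝ) :
    Measurable fun p : ℂ × ℂ => AEU.H12.JKr m1 m2 b κ p.1 p.2 := by
  unfold AEU.H12.JKr
  have harg : Measurable Complex.arg := Complex.measurable_arg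
  have hk1 : Measurable fun q : (ℂ × ℂ) × ℝ => AEU.H12.Kit q.2 (κ * ‖q.1.1‖) :=
    kit_meas2.comp (by fun_prop : Measurable fun q : (ℂ × ℂ) × ℝ => ((q.2, κ * ‖q.1.1‖) : ℝ × ℝ))
  have hk2 : Measurable fun q : (ℂ × ℂ) × ℝ => AEU.H12.Kit q.2 (κ * ‖q.1.2‖) :=
    kit_meas2.comp (by fun_prop : Measurable fun q : (ℂ × ℂ) × ℝ => ((q.2, κ * ‖q.1.2‖) : ℝ × ℝ))
  have hz : Measurable fun q : (ℂ × ℂ) × ℝ => q.1.1.arg := harg.comp (measurable_fst.comp measurable_fst)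
  have hx : Measurable fun q : (ℂ × ℂ) × ℝ => q.1.2.arg := harg.comp (measurable_snd.comp measurable_fst)
  have hm1 : Measurable fun q : (ℂ × ℂ) × ℝ => m1 q.2 := h1.comp measurable_snd
  have hm2 : Measurable fun q : (ℂ × ℂ) × ℝ => m2 q.2 := h2.comp measurable_snd
  have hτ : Measurable fun q : (ℂ × ℂ) × ℝ => q.2 := measurable_snd
  have hc1 : Measurable fun q : (ℂ × ℂ) × ℝ => Real.cosh ((b + q.1.1.arg + q.1.2.arg) * q.2) :=
    Real.measurable_cosh.comp (((measurable_const.add hz).add hx).mul hτ)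
  have hc2 : Measurable fun q : (ℂ × ℂ) × ℝ => Real.cosh ((q.1.1.arg - q.1.2.arg) * q.2) :=
    Real.measurable_cosh.comp ((hz.sub hx).mul hτ)
  have hall : Measurable fun q : (ℂ × ℂ) × ℝ => AEU.H12.Kit q.2 (κ * ‖q.1.1‖) * AEU.H12.Kit q.2 (κ * ‖q.1.2‖) *
      (m1 q.2 * Real.cosh ((b + q.1.1.arg + q.1.2.arg) * q.2) +
        m2 q.2 * Real.cosh ((q.1.1.arg - q.1.2.arg) * q.2)) :=
    (hk1.mul hk2).mul ((hm1.mul hc1).add (hm2.mul hc2))
  exact measurable_const.mul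
    (hall.stronglyMeasurable.integral_prod_right' (ν := volume.restrict (Ioi (0:ℝ)))).measurable

lemma ratio_bound {α τ : ℝ} (h1 : Real.pi / 2 < α) (h2 : α < Real.pi) (hτ : 0 < τ) :
    0 ≤ Real.sinh ((Real.pi - α) * τ) / Real.sinh (α * τ) ∧
    Real.sinh ((Real.pi - α) * τ) / Real.sinh (α * τ) ≤ Real.exp (-((2 * α - Real.pi) * τ)) := by
  have hpi := Real.pi_pos
  have hs : 0 < Real.sinh (α * τ) := Real.sinh_pos_iff.2 (mul_pos (by linarith) hτ)
  have hs2 : 0 < Real.sinh ((Real.pi - α) * τ) :=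
    Real.sinh_pos_iff.2 (mul_pos (by linarith) hτ)
  refine ⟨(div_pos hs2 hs).le, ?_⟩
  rw [div_le_iff₀ hs, Real.sinh_eq, Real.sinh_eq]
  have e1 : Real.exp (-((2 * α - Real.pi) * τ)) * ((Real.exp (α * τ) - Real.exp (-(α * τ))) / 2) =
      (Real.exp ((Real.pi - α) * τ) - Real.exp ((Real.pi - 3 * α) * τ)) / 2 := by
    rw [mul_div_assoc', mul_sub, ← Real.exp_add, ← Real.exp_add]
    congr 3 <;> ring
  rw [e1]
  have e2 : Real.exp ((Real.pi - 3 * α) * τ) ≤ Real.exp (-((Real.pi - α) * τ)) := by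
    apply Real.exp_le_exp.2
    nlinarith
  linarith

lemma jkr_bound (m : ℝ → ℝ) {α κ s : ℝ} (h1 : Real.pi / 2 < α) (hκ : 0 < κ)
    (hs : 0 < s) (hm : ∀ τ : ℝ, 0 < τ → 0 ≤ m τ ∧ m τ ≤ Real.exp (-((2 * α - Real.pi) * τ))) :
    ∃ M : ℝ, ∀ z x : ℂ, s ≤ z.re → s ≤ x.re → |z.arg| ≤ (2 * α - Real.pi) / 4 →
      |x.arg| ≤ (2 * α - Real.pi) / 4 →
      |AEU.H12.JKr m (fun τ => -m τ) 0 κ z x| ≤ M := by
  set K : ℝ := AEU.H12.E0 (κ * s) / 2 with hK
  set g : ℝ := (2 * α - Real.pi) / 2 with hg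
  have hg0 : 0 < g := by rw [hg]; linarith
  have hκs : 0 < κ * s := by positivity
  have hK0 : 0 ≤ K := by
    rw [hK]; exact div_nonneg (AEU.H12.E0_nonneg _) (by norm_num)
  refine ⟨1 / Real.pi ^ 2 * ∫ τ in Ioi (0:ℝ), K * K * (2 * Real.exp (-g * τ)), ?_⟩
  intro z x hz hx ha hb
  unfold AEU.H12.JKr
  rw [abs_mul, abs_of_nonneg (by positivity : (0:ℝ) ≤ 1 / Real.pi ^ 2)]
  apply mul_le_mul_of_nonneg_left _ (by positivity)
  rw [← Real.norm_eq_abs]
  have hint : IntegrableOn (fun τ : ℝ => K * K * (2 * Real.exp (-g * τ))) (Ioi 0) :=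
    ((exp_neg_integrableOn_Ioi 0 hg0).const_mul 2).const_mul (K * K)
  refine norm_integral_le_of_norm_le hint ?_
  refine (ae_restrict_iff' measurableSet_Ioi).2 (Eventually.of_forall fun τ hτ => ?_)
  rw [mem_Ioi] at hτ
  have hkit : ∀ w : ℂ, s ≤ w.re → |AEU.H12.Kit τ (κ * ‖w‖)| ≤ K := by
    intro w hw
    have hw1 : s ≤ ‖w‖ := hw.trans (Complex.re_le_norm w)
    have hw2 : κ * s ≤ κ * ‖w‖ := mul_le_mul_of_nonneg_left hw1 hκ.le
    have h3 := AEU.H12.kit_zero_nonneg_le (hκs.trans_le hw2) τ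
    have h4 := AEU.H12.E0_anti hκs hw2
    rw [hK]
    linarith
  have hcosh : ∀ c : ℝ, |c| ≤ g → Real.cosh (c * τ) ≤ Real.exp (g * τ) := by
    intro c hc
    refine (cosh_le_exp _).trans (Real.exp_le_exp.2 ?_)
    rw [abs_mul, abs_of_pos hτ]
    exact mul_le_mul_of_nonneg_right hc hτ.le
  have hc1 := hcosh (0 + z.arg + x.arg) (by
    rw [zero_add]
    refine (abs_add_le _ _).trans ?_
    rw [hg]; linarith)
  have hc2 := hcosh (z.arg - x.arg) (by
    refine (abs_sub _ _).trans ?_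
    rw [hg]; linarith)
  obtain ⟨hm0, hm1⟩ := hm τ hτ
  have hp1 := Real.cosh_pos ((0 + z.arg + x.arg) * τ)
  have hp2 := Real.cosh_pos ((z.arg - x.arg) * τ)
  have h5 : |m τ * Real.cosh ((0 + z.arg + x.arg) * τ) + -m τ * Real.cosh ((z.arg - x.arg) * τ)| ≤
      2 * Real.exp (-g * τ) := by
    have e1 : m τ * Real.cosh ((0 + z.arg + x.arg) * τ) + -m τ * Real.cosh ((z.arg - x.arg) * τ) =
      m τ * (Real.cosh ((0 + z.arg + x.arg) * τ) - Real.cosh ((z.arg - x.arg) * τ)) := by ring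
    rw [e1, abs_mul, abs_of_nonneg hm0]
    have e2 : |Real.cosh ((0 + z.arg + x.arg) * τ) - Real.cosh ((z.arg - x.arg) * τ)| ≤
        2 * Real.exp (g * τ) := by
      rw [abs_le]
      constructor <;> linarith
    calc m τ * |Real.cosh ((0 + z.arg + x.arg) * τ) - Real.cosh ((z.arg - x.arg) * τ)|
        ≤ Real.exp (-((2 * α - Real.pi) * τ)) * (2 * Real.exp (g * τ)) :=
          mul_le_mul hm1 e2 (abs_nonneg _) (Real.exp_pos _).le
      _ = 2 * (Real.exp (-((2 * α - Real.pi) * τ)) * Real.exp (g * τ)) := by ring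
      _ = 2 * Real.exp (-g * τ) := by
          rw [← Real.exp_add]
          congr 2
          rw [hg]; ring
  rw [norm_mul, norm_mul, Real.norm_eq_abs, Real.norm_eq_abs, Real.norm_eq_abs]
  exact mul_le_mul (mul_le_mul (hkit z hz) (hkit x hx) (abs_nonneg _) hK0) h5 (abs_nonneg _)
    (by positivity)


theorem jkb : Pool.Agent.XQ.AH.JkbStatement := by
  intro α κ s h1 h2 hκ hs
  have hmm : Measurable (Pool.Agent.XQ.AH.mm α) := by
    unfold Pool.Agent.XQ.AH.mm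
    exact (Real.measurable_sinh.comp (measurable_const.mul measurable_id)).div
      (Real.measurable_sinh.comp (measurable_const.mul measurable_id))
  exact ⟨jkr_meas _ _ hmm hmm.neg 0 κ,
    jkr_bound (Pool.Agent.XQ.AH.mm α) h1 hκ hs fun τ hτ => ratio_bound h1 h2 hτ⟩

end Pool.Agent.XQ.H81
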