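import Pool.Agent.Helper81_XQ.FcdC

/-! Squad XQ, module FCD, part D: facing sides. -/

set_option autoImplicit false

namespace Pool.Agent.XQ.H81

open MeasureTheory Complex Filter Topology ProbabilityTheory Pool.Agent.H16Iso Pool.Agent.H62T
open Pool.Agent.H16F (Sublin ind)
open Pool.Agent.AEU Pool.Agent.AEU.H35 Pool.Agent.XQ

lemma gn_sm {X : Finset HP} {h : ℂ → ℝ} (hg : Gn X h) {s : ℝ} (hs : 0 < s) : Gn X (sm s h) := by
  intro a ha b hb c hc d hd h4 hdt he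
  apply hg a ha b hb c hc d hd h4 hdt
  rw [DD_sm, DD_sm] at he
  have h1 : s * (D0 a b c * DD a.1 b.1 d.1 h) = s * (D0 a b d * DD a.1 b.1 c.1 h) := by
    linear_combination he
  exact mul_left_cancel₀ hs.ne' h1

/-- the case without wide bodies -/
lemma base (ddx : DdxStatement) (dcx : DcxStatement) {Q : Finset HP} {q : (ℂ → ℝ) → ℝ} {L δ : ℝ}
    {M N T : Finset (Finset HP)} {c : Finset HP → HP → ℝ} {K : Finset HP → ℂ → ℝ} (hL : 0 < L)
    (hPg : Pg Q) (hq : Quad Q q) (hP : Part Q L δ M N T c K) {h : ℂ → ℝ} (hs : Sublin h)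
    (hlam : lam h < L + δ) (hg : Gn Q h)
    (hw : ∀ a a', FacePair Q L a a' → h a.1 + h a'.1 < L / 2) :
    VX Q h = q h + DX Q T c (M ∪ N) h := by
  obtain ⟨d1, d2⟩ := ddx Q q hPg hq
  have hnt := d1 h hg
  rw [← dcx Q L δ M N T c K hL hPg hP h hs hlam hnt]
  apply d2 h hs hg
  intro a ha a' ha' hne hdt σ x hσ hσ1 hf ht
  by_cases hF : FacePair Q L a a'
  · have h1 := hw a a' hF
    have h2 := width_nonneg hs a.1
    rw [← hF.opp] at h2
    have h3 : ip a.1 x + ip a'.1 x = 0 := by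
      rw [hF.opp, ipc_neg_left]; ring
    have h4 := hF.dist
    have h5 : σ * (h a.1 + h a'.1) = L / 2 := by
      have := ht.1
      have := ht.2
      linarith only [ht, h3, h4]
    nlinarith only [ht, h3, h4, hL, hσ1, hσ, h1]
  · have hs' := sublin_copy hs hσ.le x
    have h0 : 0 ≤ lam h := AEU.H69.lamS.2.2.1 h hs
    refine hP.par a ha a' ha' hne hdt hF _ hs' hf ?_ ⟨?_, ?_⟩
    · rw [lam_copy hs]
      nlinarith
    · exact AEU.H69.mem_touch.2 ⟨ha, ht.1⟩
    · exact AEU.H69.mem_touch.2 ⟨ha', ht.2⟩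

/-- a common bound for a finite family -/
lemma common {ι : Type} (s : Finset ι) (p : ι → ℝ → Prop)
    (hp : ∀ i m m', p i m → m' ≤ m → p i m') (h : ∀ i ∈ s, ∃ m > 0, p i m) :
    ∃ m > 0, ∀ i ∈ s, p i m := by
  classical
  induction s using Finset.induction_on with
  | empty => exact ⟨1, one_pos, by simp⟩
  | insert a s ha ih =>
    obtain ⟨m1, h1, h2⟩ := ih fun i hi => h i (Finset.mem_insert_of_mem hi)
    obtain ⟨m2, h3, h4⟩ := h a (Finset.mem_insert_self a s)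
    refine ⟨min m1 m2, lt_min h1 h3, ?_⟩
    intro i hi
    rcases Finset.mem_insert.mp hi with rfl | hi
    · exact hp _ _ _ h4 (min_le_right _ _)
    · exact hp _ _ _ (h2 i hi) (min_le_left _ _)

/-- the overlaps of facing sides -/
lemma overlap {Q : Finset HP} {L δ : ℝ}
    {M N T : Finset (Finset HP)} {c : Finset HP → HP → ℝ} {K : Finset HP → ℂ → ℝ}
    (hPg : Pg Q) (hP : Part Q L δ M N T c K) :
    ∃ m0 > 0, ∀ a a', FacePair Q L a a' → ∃ P0 P1 : ℂ, P0 ∈ Cl Q ∧ P1 ∈ Cl Q ∧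
      P0 - ((L / 2 : ℝ) : ℂ) * a.1 ∈ Cl Q ∧ P1 - ((L / 2 : ℝ) : ℂ) * a.1 ∈ Cl Q ∧
      ip a.1 P0 = a.2 ∧ ip a.1 P1 = a.2 ∧ m0 ≤ ip (a.1 * I) P1 - ip (a.1 * I) P0 := by
  obtain ⟨m, hm, h1⟩ := common (Q ×ˢ Q) (fun i m => FacePair Q L i.1 i.2 → ∃ P0 P1 : ℂ,
      P0 ∈ Cl Q ∧ P1 ∈ Cl Q ∧
      P0 - ((L / 2 : ℝ) : ℂ) * i.1.1 ∈ Cl Q ∧ P1 - ((L / 2 : ℝ) : ℂ) * i.1.1 ∈ Cl Q ∧
      ip i.1.1 P0 = i.1.2 ∧ ip i.1.1 P1 = i.1.2 ∧ m ≤ ip (i.1.1 * I) P1 - ip (i.1.1 * I) P0)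
    (by
      intro i m m' h1 h2 h3
      obtain ⟨P0, P1, g1, g2, g3, g4, g5, g6, g7⟩ := h1 h3
      exact ⟨P0, P1, g1, g2, g3, g4, g5, g6, h2.trans g7⟩)
    (by
      rintro ⟨a, a'⟩ _
      by_cases hF : FacePair Q L a a'
      · obtain ⟨x, y, hne, hx, hy, hx1, hy1, hx2, hy2⟩ := hP.face a a' hF
        have hu := hPg.unit a hF.mem
        have hne2 : ip (a.1 * I) x ≠ ip (a.1 * I) y := by
          intro he
          apply hne
          have e1 := vec_dec hu x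
          have e2 := vec_dec hu y
          have c1 : ∀ u v : ℂ, ip u v = ip v u := by intro u v; unfold ip; ring
          rw [c1 x a.1, c1 x (a.1 * I), hx1, he] at e1
          rw [c1 y a.1, c1 y (a.1 * I), hy1] at e2
          exact e1.trans e2.symm
        rcases lt_or_gt_of_ne hne2 with hlt | hlt
        · exact ⟨_, sub_pos.mpr hlt, fun _ => ⟨x, y, hx, hy, hx2, hy2, hx1, hy1, le_rfl⟩⟩
        · exact ⟨_, sub_pos.mpr hlt, fun _ => ⟨y, x, hy, hx, hy2, hx2, hy1, hx1, le_rfl⟩⟩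
      · exact ⟨1, one_pos, fun h => absurd h hF⟩)
  exact ⟨m, hm, fun a a' hF => h1 (a, a') (Finset.mem_product.mpr ⟨hF.mem, hF.mem'⟩) hF⟩

lemma vx_zero {X : Finset HP} {L : ℝ} {a a' : HP} (ha : a ∈ X) (ha' : a' ∈ X)
    (hopp : a'.1 = -a.1) (hd : a.2 + a'.2 = L / 2) {h : ℂ → ℝ} (hw : L / 2 < h a.1 + h a'.1) :
    VX X h = 0 := by
  have : {x : ℂ | ∀ s ∈ X, ip s.1 x ≤ s.2 - h s.1} = ∅ := by
    ext x
    simp only [Set.mem_setOf_eq, Set.mem_empty_iff_false, iff_false]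
    intro hx
    have h1 := hx a ha
    have h2 := hx a' ha'
    have h3 : ip a.1 x + ip a'.1 x = 0 := by
      rw [hopp, ipc_neg_left]; ring
    linarith
  unfold VX
  rw [this]
  simp

/-- the quadratic polynomial is invariant under translations -/
lemma quad_tr {X : Finset HP} {q : (ℂ → ℝ) → ℝ} (hq : Quad X q) {h : ℂ → ℝ} (hs : Sublin h)
    (x : ℂ) {w0 : ℝ} {w1 : HP → ℝ} {w2 : HP → HP → ℝ}
    (hf : ∀ h : ℂ → ℝ, q h = w0 + ∑ s ∈ X, w1 s * h s.1
      + ∑ s ∈ X, ∑ r ∈ X, w2 s r * (h s.1 * h r.1)) :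
    ∑ s ∈ X, ∑ r ∈ X, w2 s r * (h s.1 * h r.1) =
      ∑ s ∈ X, ∑ r ∈ X, w2 s r * ((h s.1 + ip s.1 x) * (h r.1 + ip r.1 x)) := by
  classical
  obtain ⟨r, hr, hsm⟩ := hq.small
  set g : ℂ → ℝ := fun w => h w + ip w x with hg
  have hgs : Sublin g := by
    have := sublin_copy hs zero_le_one x
    simpa only [one_mul] using this
  -- a small factor
  obtain ⟨τ, hτ, hτ1⟩ : ∃ τ > 0, ∀ s ∈ X, |τ * h s.1| ≤ r ∧ |τ * g s.1| ≤ r := by
    obtain ⟨m, hm, h1⟩ := common X (fun s m => 0 ≤ m → m * |h s.1| ≤ r ∧ m * |g s.1| ≤ r)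
      (by
        intro s m m' h1 h2 h3
        obtain ⟨k1, k2⟩ := h1 (h3.trans h2)
        exact ⟨(mul_le_mul_of_nonneg_right h2 (abs_nonneg _)).trans k1,
          (mul_le_mul_of_nonneg_right h2 (abs_nonneg _)).trans k2⟩)
      (by
        intro s _
        have p1 : 0 < 1 + |h s.1| + |g s.1| := by positivity
        refine ⟨r / (1 + |h s.1| + |g s.1|), by positivity, fun _ => ⟨?_, ?_⟩⟩
        · rw [div_mul_eq_mul_div, div_le_iff₀ p1]
          exact mul_le_mul_of_nonneg_left (by linarith [abs_nonneg (g s.1)]) hr.le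
        · rw [div_mul_eq_mul_div, div_le_iff₀ p1]
          exact mul_le_mul_of_nonneg_left (by linarith [abs_nonneg (h s.1)]) hr.le)
    refine ⟨m, hm, fun s hs' => ?_⟩
    rw [abs_mul, abs_mul, abs_of_pos hm]
    exact h1 s hs' hm.le
  have key : ∀ τ' : ℝ, 0 < τ' → τ' ≤ τ → q (sm τ' h) = q (sm τ' g) := by
    intro τ' h0 h1
    have e : ∀ (k : ℂ → ℝ) (s : HP), |τ * k s.1| ≤ r → |sm τ' k s.1| ≤ r := by
      intro k s hk
      unfold sm
      rw [abs_mul, abs_of_pos h0]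
      rw [abs_mul, abs_of_pos hτ] at hk
      exact (mul_le_mul_of_nonneg_right h1 (abs_nonneg _)).trans hk
    rw [← hsm (sm τ' h) (sublin_sm hs h0.le) fun s hs' => e h s (hτ1 s hs').1,
      ← hsm (sm τ' g) (sublin_sm hgs h0.le) fun s hs' => e g s (hτ1 s hs').2]
    rw [← VX_tr X (sm τ' h) ((τ' : ℂ) * x)]
    congr 1
    funext w
    simp only [sm, hg]
    rw [ipc_mul_right]
    ring
  have form : ∀ (τ' : ℝ) (k : ℂ → ℝ), q (sm τ' k) = w0 + τ' * ∑ s ∈ X, w1 s * k s.1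
      + τ' ^ 2 * ∑ s ∈ X, ∑ r ∈ X, w2 s r * (k s.1 * k r.1) := by
    intro τ' k
    rw [hf]
    unfold sm
    rw [Finset.mul_sum, Finset.mul_sum]
    congr 1
    · congr 1
      exact Finset.sum_congr rfl fun s _ => by ring
    · refine Finset.sum_congr rfl fun s _ => ?_
      rw [Finset.mul_sum]
      exact Finset.sum_congr rfl fun r _ => by ring
  have k1 := key τ hτ le_rfl
  have k2 := key (τ / 2) (by positivity) (by linarith)
  rw [form, form] at k1 k2
  set A1 := ∑ s ∈ X, w1 s * h s.1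
  set B1 := ∑ s ∈ X, w1 s * g s.1
  set A2 := ∑ s ∈ X, ∑ r ∈ X, w2 s r * (h s.1 * h r.1)
  set B2 := ∑ s ∈ X, ∑ r ∈ X, w2 s r * (g s.1 * g r.1)
  have h3 : τ ^ 2 * (A2 - B2) = 0 := by
    linear_combination 2 * k1 - 4 * k2
  have h4 : A2 - B2 = 0 := by
    rcases mul_eq_zero.mp h3 with h5 | h5
    · exact absurd (pow_eq_zero_iff (two_ne_zero)|>.mp h5) hτ.ne'
    · exact h5
  linarith only [h4]

lemma fin_arith {W L m KK : ℝ} (hL : 0 < L) (hW : L / 2 < W) (hKK : 0 ≤ KK) :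
    (W - L / 2) / W * (-(W * m) + KK * ((W - L / 2) / W)) ≤
      -(m * (W - L / 2)) + 4 * KK / L ^ 2 * (W - L / 2) ^ 2 := by
  have hWp : 0 < W := by linarith
  have e2 : (W - L / 2) / W * (-(W * m) + KK * ((W - L / 2) / W)) =
      -(m * (W - L / 2)) + KK * (W - L / 2) ^ 2 / W ^ 2 := by
    field_simp
  rw [e2]
  have e3 : KK * (W - L / 2) ^ 2 / W ^ 2 ≤ 4 * KK / L ^ 2 * (W - L / 2) ^ 2 := by
    rw [div_mul_eq_mul_div, div_le_div_iff₀ (by positivity) (by positivity)]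
    have e4 : L ^ 2 ≤ 4 * W ^ 2 := by nlinarith only [hL, hW]
    have e5 : 0 ≤ KK * (W - L / 2) ^ 2 := mul_nonneg hKK (sq_nonneg _)
    have e6 := mul_le_mul_of_nonneg_left e4 e5
    linarith only [e6]
  linarith

lemma dt_le_one {a b : ℂ} (ha : ‖a‖ = 1) (hb : ‖b‖ = 1) : |dt a b| ≤ 1 := by
  have h1 := Complex.sq_norm a
  have h2 := Complex.sq_norm b
  rw [ha, Complex.normSq_apply] at h1
  rw [hb, Complex.normSq_apply] at h2
  apply abs_le_of_sq_le_sq _ zero_le_one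
  unfold dt
  nlinarith only [h1, h2, sq_nonneg (a.re * b.re + a.im * b.im)]

/-- FCD -/
theorem fcd (ddx : DdxStatement) (dcx : DcxStatement) (clx : ClxStatement) (twf : TwfStatement)
    (arc : ArcStatement) : FcdStatement := by
  classical
  intro Q q L δ M N T c K hL hδ hPg hq hP
  obtain ⟨δt, hδt, htwf⟩ := twf Q L hL hPg
  obtain ⟨m0, hm0, hov⟩ := overlap hPg hP
  obtain ⟨l, hl, hhi⟩ := VX_hi hPg.bdd
  obtain ⟨w0, w1, w2, hf⟩ := hq.form
  set B0 : ℝ := (L + δ) / 2 with hB0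
  have hB0p : 0 < B0 := by rw [hB0]; positivity
  set KK : ℝ := (∑ s ∈ Q, ∑ r ∈ Q, |w2 s r|) * B0 ^ 2 + kd T c (M ∪ N) * (3 * B0) ^ 2 with hKK
  have hKK0 : 0 ≤ KK := by
    have e1 : 0 ≤ ∑ s ∈ Q, ∑ r ∈ Q, |w2 s r| :=
      Finset.sum_nonneg fun _ _ => Finset.sum_nonneg fun _ _ => abs_nonneg _
    have e2 := kd_nonneg T c (M ∪ N)
    positivity
  set δ' : ℝ := min (min δ δt) (min 1 (m0 ^ 2 / (2 * L + 1))) with hδ'
  have hδ'1 : δ' ≤ δ := (min_le_left _ _).trans (min_le_left _ _)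
  have hδ'2 : δ' ≤ δt := (min_le_left _ _).trans (min_le_right _ _)
  have hδ'3 : δ' ≤ 1 := (min_le_right _ _).trans (min_le_left _ _)
  have hδ'4 : δ' ≤ m0 ^ 2 / (2 * L + 1) := (min_le_right _ _).trans (min_le_right _ _)
  have hδ'0 : 0 < δ' := lt_min (lt_min hδ hδt) (lt_min one_pos (by positivity))
  refine ⟨δ', m0 / 2, 4 * KK / L ^ 2, hδ'0, hδ'1, by positivity, ?_⟩
  intro h hs hlam hg
  have hlamδ : lam h < L + δ := by linarith
  refine ⟨fun hw => base ddx dcx hL hPg hq hP hs hlamδ hg hw, ?_⟩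
  intro a a' hF hW
  have hlam0 : 0 ≤ lam h := AEU.H69.lamS.2.2.1 h hs
  have hu := hPg.unit a hF.mem
  set W : ℝ := h a.1 + h a'.1 with hWdef
  have hWp : 0 < W := by linarith
  -- translate the body
  obtain ⟨x0, hx0, _⟩ := (AEU.H69.sup h hs).2.2.2 1
  set h0 : ℂ → ℝ := fun w => h w + ip w (-x0) with hh0
  have hipn : ∀ w, ip w (-x0) = -ip w x0 := by intro w; unfold ip; simp; ring
  have hs0 : Sublin h0 := by
    have := sublin_copy hs zero_le_one (-x0)
    simpa only [one_mul] using this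
  have hlam00 : lam h0 = lam h := by
    have := lam_copy hs 1 (-x0)
    simpa only [one_mul] using this
  have hpos : ∀ w, 0 ≤ h0 w := by
    intro w
    simp only [hh0]
    rw [hipn]
    linarith only [hx0 w]
  have hW0 : h0 a.1 + h0 (-a.1) = W := by
    simp only [hh0, hWdef]
    rw [hF.opp, ipc_neg_left]
    ring
  have hrh := rhombus arc hs0 hu
  rw [hW0, hlam00] at hrh
  set E : ℝ := h0 (a.1 * I) + h0 (-(a.1 * I)) with hE
  have hE0 : 0 ≤ E := add_nonneg (hpos _) (hpos _)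
  have hE1 : E ≤ m0 / 2 := by
    apply le_of_sq_le_sq _ (by positivity)
    have e1 : (lam h / 2) ^ 2 ≤ ((L + δ') / 2) ^ 2 :=
      pow_le_pow_left₀ (by linarith) (by linarith) 2
    have e2 : (L / 2) ^ 2 ≤ W ^ 2 := pow_le_pow_left₀ (by linarith) hW.le 2
    have e3 : δ' * (2 * L + 1) ≤ m0 ^ 2 := by
      rw [le_div_iff₀ (by positivity)] at hδ'4
      exact hδ'4
    have e4 : δ' * δ' ≤ δ' * 1 := mul_le_mul_of_nonneg_left hδ'3 hδ'0.le
    have e5 : ((L + δ') / 2) ^ 2 = (L / 2) ^ 2 + (2 * L * δ' + δ' * δ') / 4 := by ring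
    have e6 : δ' * (2 * L + 1) = 2 * L * δ' + δ' := by ring
    have e7 : (m0 / 2) ^ 2 = m0 ^ 2 / 4 := by ring
    linarith
  have hle : ∀ u : ℂ, ‖u‖ = 1 → |h0 u| ≤ B0 := by
    intro u hu1
    rw [abs_of_nonneg (hpos u)]
    have e1 := rhombus arc hs0 hu1
    rw [hlam00] at e1
    have e2 : (h0 u + h0 (-u)) ^ 2 ≤ (lam h / 2) ^ 2 := by
      have := sq_nonneg (h0 (u * I) + h0 (-(u * I)))
      linarith
    have e3 := abs_le_of_sq_le_sq e2 (by linarith)
    have e4 := (abs_le.mp e3).2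
    have := hpos (-u)
    rw [hB0]
    linarith
  -- the functionals
  have hDD : ∀ a ∈ Q, ∀ b ∈ Q, ∀ c ∈ Q, |DD a.1 b.1 c.1 h| ≤ 3 * B0 := by
    intro a ha b hb c hc
    have e : DD a.1 b.1 c.1 h = DD a.1 b.1 c.1 h0 := by
      have := dt_ip_cyc a.1 b.1 c.1 (-x0)
      unfold DD
      simp only [hh0]
      linear_combination -this
    rw [e]
    unfold DD
    have t : ∀ u v w : ℂ, ‖u‖ = 1 → ‖v‖ = 1 → ‖w‖ = 1 → |dt u v * h0 w| ≤ B0 := by
      intro u v w hu1 hv1 hw1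
      rw [abs_mul]
      calc |dt u v| * |h0 w| ≤ 1 * B0 :=
            mul_le_mul (dt_le_one hu1 hv1) (hle w hw1) (abs_nonneg _) zero_le_one
        _ = B0 := one_mul _
    have ua := hPg.unit a ha
    have ub := hPg.unit b hb
    have uc := hPg.unit c hc
    have t1 := t b.1 c.1 a.1 ub uc ua
    have t2 := t c.1 a.1 b.1 uc ua ub
    have t3 := t a.1 b.1 c.1 ua ub uc
    have s1 := abs_add_le (dt b.1 c.1 * h0 a.1 + dt c.1 a.1 * h0 b.1) (dt a.1 b.1 * h0 c.1)
    have s2 := abs_add_le (dt b.1 c.1 * h0 a.1) (dt c.1 a.1 * h0 b.1)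
    linarith
  have hnt : NoTie Q h := (ddx Q q hPg hq).1 h hg
  have sd1 : SD (kd T c (M ∪ N) * (3 * B0) ^ 2) fun s => DX Q T c (M ∪ N) (sm s h) :=
    sd_DX clx hL hPg.unit (Finset.union_subset hP.sM hP.sN) hP.torn hnt hDD
  have sd2 : SD ((∑ s ∈ Q, ∑ r ∈ Q, |w2 s r|) * B0 ^ 2) fun s => q (sm s h) := by
    have e1 := SD.quad w0 (∑ s ∈ Q, w1 s * h s.1) (∑ s ∈ Q, ∑ r ∈ Q, w2 s r * (h s.1 * h r.1))
    refine (e1.mono ?_).congr fun s _ _ => ?_
    · rw [quad_tr hq hs (-x0) hf]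
      refine (Finset.abs_sum_le_sum_abs _ _).trans ?_
      rw [Finset.sum_mul]
      refine Finset.sum_le_sum fun s hs' => ?_
      refine (Finset.abs_sum_le_sum_abs _ _).trans ?_
      rw [Finset.sum_mul]
      refine Finset.sum_le_sum fun r hr' => ?_
      rw [abs_mul, abs_mul]
      have k1 := hle s.1 (hPg.unit s hs')
      have k2 := hle r.1 (hPg.unit r hr')
      refine mul_le_mul_of_nonneg_left ?_ (abs_nonneg _)
      rw [sq]
      exact mul_le_mul k1 k2 (abs_nonneg _) hB0p.le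
    · show q (sm s h) = _
      rw [hf]
      unfold sm
      rw [Finset.mul_sum, Finset.mul_sum]
      congr 1
      · congr 1
        exact Finset.sum_congr rfl fun s _ => by ring
      · refine Finset.sum_congr rfl fun s _ => ?_
        rw [Finset.mul_sum]
        exact Finset.sum_congr rfl fun r _ => by ring
  have sd : SD KK fun s => q (sm s h) + DX Q T c (M ∪ N) (sm s h) := sd2.add sd1
  set ss : ℝ := (L / 2) / W with hss
  have hssW : W * ss = L / 2 := by rw [hss]; field_simp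
  have hss0 : 0 < ss := by positivity
  have hss1 : ss < 1 := by rw [hss, div_lt_one hWp]; exact hW
  -- the area along the ray
  have hG : ∀ s, 0 < s → s < ss → q (sm s h) + DX Q T c (M ∪ N) (sm s h) = VX Q (sm s h0) := by
    intro s h1 h2
    have e1 : VX Q (sm s h0) = VX Q (sm s h) := by
      rw [← VX_tr Q (sm s h) ((s : ℂ) * (-x0))]
      congr 1
      funext w
      simp only [sm, hh0]
      rw [ipc_mul_right]
      ring
    rw [e1]
    symm
    refine base ddx dcx hL hPg hq hP (sublin_sm hs h1.le) ?_ (gn_sm hg h1) ?_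
    · rw [lam_sm hs]
      exact (mul_le_of_le_one_left hlam0 (h2.trans hss1).le).trans_lt hlamδ
    · intro b b' hFb
      have k0 : sm s h b.1 + sm s h b'.1 = s * (h b.1 + h b'.1) := by unfold sm; ring
      rw [k0]
      rcases le_or_gt (h b.1 + h b'.1) (L / 2) with k1 | k1
      · have k2 := width_nonneg hs b.1
        rw [← hFb.opp] at k2
        have k4 := mul_le_mul_of_nonneg_left k1 h1.le
        have k5 := mul_lt_mul_of_pos_right (h2.trans hss1) (half_pos hL)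
        linarith only [k4, k5]
      · have k3 : h b.1 + h b'.1 = W := by
          rcases htwf h hs (by linarith) a a' b b' hF hFb hW k1 with ⟨r1, r2⟩ | ⟨r1, r2⟩
          · rw [← r1, ← r2]
          · rw [← r1, ← r2, add_comm]
        rw [k3]
        have k4 := mul_lt_mul_of_pos_right h2 hWp
        linarith
  obtain ⟨P0, P1, g1, g2, g3, g4, g5, g6, g7⟩ := hov a a' hF
  have hwid : ∀ s, sm s h0 a.1 + sm s h0 (-a.1) = s * W := by
    intro s
    rw [← hW0]
    unfold sm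
    ring
  have lo : ∀ s, 0 < s → s < ss → W * (m0 / 2) * (ss - s) ≤
      q (sm s h) + DX Q T c (M ∪ N) (sm s h) := by
    intro s h1 h2
    rw [hG s h1 h2]
    have hsW : s * W < L / 2 := by
      have k4 := mul_lt_mul_of_pos_right h2 hWp
      linarith
    have e0 : sm s h0 (a.1 * I) + sm s h0 (-(a.1 * I)) = s * E := by
      rw [hE]
      unfold sm
      ring
    have e1 : s * E ≤ m0 / 2 := (mul_le_of_le_one_left hE0 (h2.trans hss1).le).trans hE1
    have e2 := VX_lo hPg.bdd (L := L) hu g1 g2 g3 g4 g5 g6 rfl rfl (sublin_sm hs0 h1.le)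
      (fun r _ => mul_nonneg h1.le (hpos r.1)) (by rw [hwid]; exact hsW.le)
      (by rw [e0]; linarith)
    rw [hwid, e0] at e2
    refine le_trans ?_ e2
    have e3 : W * (m0 / 2) * (ss - s) = (L / 2 - s * W) * (m0 / 2) := by
      rw [← hssW]; ring
    rw [e3]
    exact mul_le_mul_of_nonneg_left (by linarith only [g7, e1]) (by linarith only [hsW])
  have hi : ∀ s, 0 < s → s < ss → q (sm s h) + DX Q T c (M ∪ N) (sm s h) ≤ W * l * (ss - s) := by
    intro s h1 h2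
    rw [hG s h1 h2]
    have hsW : s * W < L / 2 := by
      have k4 := mul_lt_mul_of_pos_right h2 hWp
      linarith
    have e1 := hhi L a a' hF.mem hF.mem' hu hF.opp hF.dist (sm s h0)
      (fun r _ => mul_nonneg h1.le (hpos r.1))
    rw [hF.opp, hwid] at e1
    refine (e1 hsW.le).trans (le_of_eq ?_)
    rw [← hssW]
    ring
  have hi0 : ∀ s, 0 < s → s < ss → 0 ≤ q (sm s h) + DX Q T c (M ∪ N) (sm s h) := by
    intro s h1 h2
    rw [hG s h1 h2]
    unfold VX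
    exact ENNReal.toReal_nonneg
  have fin := sd.last (w := W) (μ := m0 / 2) (l := l) hss0 hss1 lo hi hi0
  simp only [sm_one] at fin
  rw [vx_zero hF.mem hF.mem' hF.opp hF.dist hW]
  have e1 : 1 - ss = (W - L / 2) / W := by
    rw [hss]; field_simp
  rw [e1] at fin
  have e2 := fin_arith (m := m0 / 2) hL hW hKK0
  linarith

end Pool.Agent.XQ.H81
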