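import Pool.Agent.Helper69_Fine.ParamAn

/-!
# The analytic kernel and the parametric integral
-/

set_option autoImplicit false

namespace Pool.Agent.XQ.U.H81

open MeasureTheory Filter Topology Set Pool.Agent.H16F.H69

/-- the complex kernel -/
noncomputable def Fc (f : ℕ → ℝ) (ζ : ℂ) : ℂ := ∑' m, (f m : ℂ) * ζ ^ m

theorem Fc_an {f : ℕ → ℝ} {R : ℝ} (hf : ∀ m, 0 ≤ f m)
    (hs : ∀ ζ : ℝ, |ζ| < R → Summable (fun m => f m * ζ ^ m)) {ζ : ℂ} (h : ‖ζ‖ < R) :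
    AnalyticAt ℂ (Fc f) ζ := by
  obtain ⟨r, hr1, hr2⟩ := exists_between h
  have hr0 : 0 < r := lt_of_le_of_lt (norm_nonneg _) hr1
  have hd : DifferentiableOn ℂ (fun w => ∑' m, (f m : ℂ) * w ^ m) (Metric.ball 0 r) := by
    apply Complex.differentiableOn_tsum_of_summable_norm (u := fun m => f m * r ^ m)
    · exact hs r (by rw [abs_of_pos hr0]; exact hr2)
    · intro i
      fun_prop
    · exact Metric.isOpen_ball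
    · intro i w hw
      rw [norm_mul, norm_pow, Complex.norm_real, Real.norm_of_nonneg (hf i)]
      have h1 : ‖w‖ ≤ r := by
        rw [Metric.mem_ball, dist_zero_right] at hw
        exact hw.le
      exact mul_le_mul_of_nonneg_left (pow_le_pow_left₀ (norm_nonneg _) h1 i) (hf i)
  exact hd.analyticAt (Metric.isOpen_ball.mem_nhds (by
    rw [Metric.mem_ball, dist_zero_right]; exact hr1))

theorem Fc_real {f : ℕ → ℝ} {x y : ℝ} (h : HasSum (fun m => f m * x ^ m) y) :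
    Fc f (x : ℂ) = (y : ℂ) := by
  unfold Fc
  rw [← h.tsum_eq, Complex.ofReal_tsum]
  refine tsum_congr fun m => ?_
  push_cast
  rfl

/-- the integrand -/
noncomputable def GG (f f' : ℕ → ℝ) (q : ℂ × ℝ) : ℂ :=
  (Fc f (q.1 * ((Real.sin q.2 ^ 2 : ℝ) : ℂ)) -
      Fc f (q.1 * ((Real.cos q.2 ^ 2 : ℝ) : ℂ) / (1 - q.1 * ((Real.sin q.2 ^ 2 : ℝ) : ℂ)))) *
    (Fc f' (q.1 * ((Real.sin q.2 ^ 2 : ℝ) : ℂ)) -
      Fc f' (q.1 * ((Real.cos q.2 ^ 2 : ℝ) : ℂ) / (1 - q.1 * ((Real.sin q.2 ^ 2 : ℝ) : ℂ)))) /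
    Complex.exp (Complex.log (1 - q.1 * ((Real.sin q.2 ^ 2 : ℝ) : ℂ)) / 2)

theorem norm_aux {z : ℂ} {m t : ℝ} (hz : ‖z‖ < m) (hm1 : m ≤ 1) :
    ‖z * ((Real.sin t ^ 2 : ℝ) : ℂ)‖ < m ∧
    (1 - z * ((Real.sin t ^ 2 : ℝ) : ℂ)) ∈ Complex.slitPlane ∧
    ‖z * ((Real.cos t ^ 2 : ℝ) : ℂ) / (1 - z * ((Real.sin t ^ 2 : ℝ) : ℂ))‖ < m := by
  have h0 := norm_nonneg z
  have hs0 : 0 ≤ Real.sin t ^ 2 := sq_nonneg _
  have hc0 : 0 ≤ Real.cos t ^ 2 := sq_nonneg _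
  have hsc : Real.sin t ^ 2 + Real.cos t ^ 2 = 1 := Real.sin_sq_add_cos_sq t
  have hn : ‖z * ((Real.sin t ^ 2 : ℝ) : ℂ)‖ = ‖z‖ * Real.sin t ^ 2 := by
    rw [norm_mul, Complex.norm_real, Real.norm_of_nonneg hs0]
  have hle : ‖z‖ * Real.sin t ^ 2 ≤ ‖z‖ := by nlinarith
  have h1 : ‖z * ((Real.sin t ^ 2 : ℝ) : ℂ)‖ < 1 := by rw [hn]; linarith
  have hre : 0 < (1 - z * ((Real.sin t ^ 2 : ℝ) : ℂ)).re := by
    rw [Complex.sub_re, Complex.one_re]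
    have := (Complex.re_le_norm (z * ((Real.sin t ^ 2 : ℝ) : ℂ)))
    linarith
  refine ⟨by rw [hn]; linarith, Or.inl hre, ?_⟩
  have h2 : 1 - ‖z‖ * Real.sin t ^ 2 ≤ ‖1 - z * ((Real.sin t ^ 2 : ℝ) : ℂ)‖ := by
    have := norm_sub_norm_le (1 : ℂ) (z * ((Real.sin t ^ 2 : ℝ) : ℂ))
    rw [norm_one, hn] at this
    exact this
  have h3 : 0 < 1 - ‖z‖ * Real.sin t ^ 2 := by linarith
  rw [norm_div, norm_mul, Complex.norm_real, Real.norm_of_nonneg hc0]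
  rw [div_lt_iff₀ (lt_of_lt_of_le h3 h2)]
  have h4 : m * (1 - ‖z‖ * Real.sin t ^ 2) ≤ m * ‖1 - z * ((Real.sin t ^ 2 : ℝ) : ℂ)‖ :=
    mul_le_mul_of_nonneg_left h2 (by linarith)
  have h5 : ‖z‖ * Real.cos t ^ 2 < m * (1 - ‖z‖ * Real.sin t ^ 2) := by
    have h6 : Real.cos t ^ 2 ≤ 1 - ‖z‖ * Real.sin t ^ 2 := by nlinarith
    calc ‖z‖ * Real.cos t ^ 2 ≤ ‖z‖ * (1 - ‖z‖ * Real.sin t ^ 2) :=
          mul_le_mul_of_nonneg_left h6 h0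
      _ < m * (1 - ‖z‖ * Real.sin t ^ 2) := mul_lt_mul_of_pos_right hz h3
  linarith

theorem GG_good {f f' : ℕ → ℝ} {R R' m : ℝ} (hf : ∀ n, 0 ≤ f n) (hf' : ∀ n, 0 ≤ f' n)
    (hs : ∀ ζ : ℝ, |ζ| < R → Summable (fun n => f n * ζ ^ n))
    (hs' : ∀ ζ : ℝ, |ζ| < R' → Summable (fun n => f' n * ζ ^ n))
    (hR : m ≤ R) (hR' : m ≤ R') (hm1 : m ≤ 1) {z : ℂ} (hz : ‖z‖ < m) (t : ℝ) :
    Good (GG f f') (z, t) := by
  obtain ⟨h1, h2, h3⟩ := norm_aux (t := t) hz hm1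
  set p : ℂ × ℝ := (z, t) with hp
  have gs : Good (fun q : ℂ × ℝ => ((Real.sin q.2 ^ 2 : ℝ) : ℂ)) p :=
    Good.snd (f := fun t : ℝ => ((Real.sin t ^ 2 : ℝ) : ℂ)) (by fun_prop) p
  have gc : Good (fun q : ℂ × ℝ => ((Real.cos q.2 ^ 2 : ℝ) : ℂ)) p :=
    Good.snd (f := fun t : ℝ => ((Real.cos t ^ 2 : ℝ) : ℂ)) (by fun_prop) p
  have g1 := (Good.fst p).mul gs
  have g2 := (Good.const 1 p).sub g1
  have g3 := ((Good.fst p).mul gc).div g2 (Complex.slitPlane_ne_zero h2)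
  have a1 : AnalyticAt ℂ (Fc f) (z * ((Real.sin t ^ 2 : ℝ) : ℂ)) :=
    Fc_an hf hs (lt_of_lt_of_le h1 hR)
  have a2 : AnalyticAt ℂ (Fc f)
      (z * ((Real.cos t ^ 2 : ℝ) : ℂ) / (1 - z * ((Real.sin t ^ 2 : ℝ) : ℂ))) :=
    Fc_an hf hs (lt_of_lt_of_le h3 hR)
  have a1' : AnalyticAt ℂ (Fc f') (z * ((Real.sin t ^ 2 : ℝ) : ℂ)) :=
    Fc_an hf' hs' (lt_of_lt_of_le h1 hR')
  have a2' : AnalyticAt ℂ (Fc f')
      (z * ((Real.cos t ^ 2 : ℝ) : ℂ) / (1 - z * ((Real.sin t ^ 2 : ℝ) : ℂ))) :=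
    Fc_an hf' hs' (lt_of_lt_of_le h3 hR')
  have a3 : AnalyticAt ℂ (fun w => Complex.exp (Complex.log w / 2))
      (1 - z * ((Real.sin t ^ 2 : ℝ) : ℂ)) :=
    ((analyticAt_clog h2).div_const).cexp
  have k1 := g1.comp a1
  have k2 := g3.comp a2
  have k1' := g1.comp a1'
  have k2' := g3.comp a2'
  have k3 := g2.comp a3
  exact ((k1.sub k2).mul (k1'.sub k2')).div k3 (Complex.exp_ne_zero _)

theorem GG_integral {f f' : ℕ → ℝ} {R R' m : ℝ} (hf : ∀ n, 0 ≤ f n) (hf' : ∀ n, 0 ≤ f' n)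
    (hs : ∀ ζ : ℝ, |ζ| < R → Summable (fun n => f n * ζ ^ n))
    (hs' : ∀ ζ : ℝ, |ζ| < R' → Summable (fun n => f' n * ζ ^ n))
    (hR : m ≤ R) (hR' : m ≤ R') (hm1 : m ≤ 1) {z : ℂ} (hz : ‖z‖ < m) :
    AnalyticAt ℂ (fun z => ∫ t in (0 : ℝ)..(Real.pi / 2), GG f f' (z, t)) z :=
  good_integral (by positivity) fun t _ => GG_good hf hf' hs hs' hR hR' hm1 hz t

end Pool.Agent.XQ.U.H81
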