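import Pool.Agent.Helper12_XQ.Stmt
import Pool.Agent.Helper81_XQ.HolBase

/-!
# U_HOL: the density is analytic up to the singularity
-/

set_option autoImplicit false

namespace Pool.Agent.XQ.U.H81

open MeasureTheory Filter Topology Set Pool.Agent.XQ.U

theorem exp_half_log {x : ℝ} (hx : 0 < x) :
    Complex.exp (Complex.log (x : ℂ) / 2) = ((√x : ℝ) : ℂ) := by
  rw [← Complex.ofReal_log hx.le]
  have : (((Real.log x : ℝ) : ℂ) / 2) = ((Real.log x * (1 / 2) : ℝ) : ℂ) := by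
    push_cast; ring
  rw [this, ← Complex.ofReal_exp, Real.sqrt_eq_rpow, Real.rpow_def_of_pos hx]

theorem GG_real {b b' m : ℝ} {f f' : ℕ → ℝ} (hm : m ≤ zb b) (hm' : m ≤ zb b') (hm1 : m ≤ 1)
    (hf : ∀ ζ : ℝ, |ζ| < zb b → HasSum (fun n => f n * ζ ^ n) (FR b ζ))
    (hf' : ∀ ζ : ℝ, |ζ| < zb b' → HasSum (fun n => f' n * ζ ^ n) (FR b' ζ))
    {y : ℝ} (hy : |y| < m) (t : ℝ) :
    GG f f' ((y : ℂ), t) =
      ((dF b y t * dF b' y t / √(1 - y * Real.sin t ^ 2) : ℝ) : ℂ) := by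
  have hz : ‖(y : ℂ)‖ < m := by rw [Complex.norm_real]; exact hy
  obtain ⟨h1, -, h3⟩ := norm_aux (t := t) hz hm1
  have e1 : (y : ℂ) * ((Real.sin t ^ 2 : ℝ) : ℂ) = ((y * Real.sin t ^ 2 : ℝ) : ℂ) := by
    push_cast; ring
  have e2 : (y : ℂ) * ((Real.cos t ^ 2 : ℝ) : ℂ) / (1 - (y : ℂ) * ((Real.sin t ^ 2 : ℝ) : ℂ)) =
      ((YY y t : ℝ) : ℂ) := by
    unfold YY; push_cast; ring
  rw [e2, Complex.norm_real, Real.norm_eq_abs] at h3
  rw [e1, Complex.norm_real, Real.norm_eq_abs] at h1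
  have hpos : 0 < 1 - y * Real.sin t ^ 2 := by
    have := (abs_lt.1 h1).2
    linarith
  have e3 : (1 : ℂ) - ((y * Real.sin t ^ 2 : ℝ) : ℂ) = ((1 - y * Real.sin t ^ 2 : ℝ) : ℂ) := by
    push_cast; ring
  unfold GG dF
  simp only
  rw [e2, e1, e3, exp_half_log hpos, Fc_real (hf _ (lt_of_lt_of_le h1 hm)),
    Fc_real (hf _ (lt_of_lt_of_le h3 hm)), Fc_real (hf' _ (lt_of_lt_of_le h1 hm')),
    Fc_real (hf' _ (lt_of_lt_of_le h3 hm'))]
  push_cast
  ring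

theorem hol (h : FserStmt) : HolStmt := by
  intro b b' m hb hb' hm hm'
  obtain ⟨f, hf0, hf⟩ := h b hb
  obtain ⟨f', hf0', hf'⟩ := h b' hb'
  have hm1 : m ≤ 1 := hm.trans (Real.cos_sq_le_one _)
  have key : ∀ y : ℝ, |y| < m →
      2 * (∫ t in (0 : ℝ)..(Real.pi / 2), GG f f' ((y : ℂ), t)).re = DR b b' y := by
    intro y hy
    have e1 : (∫ t in (0 : ℝ)..(Real.pi / 2), GG f f' ((y : ℂ), t)) =
        ∫ t in (0 : ℝ)..(Real.pi / 2),
          ((dF b y t * dF b' y t / √(1 - y * Real.sin t ^ 2) : ℝ) : ℂ) := by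
      congr 1
      funext t
      exact GG_real hm hm' hm1 hf hf' hy t
    rw [e1, intervalIntegral.integral_ofReal, Complex.ofReal_re,
      intervalIntegral.integral_of_le (by positivity), integral_Ioc_eq_integral_Ioo]
    rfl
  intro x hx
  have hx' : |x| < m := abs_lt.2 hx
  have hz : ‖(x : ℂ)‖ < m := by rw [Complex.norm_real]; exact hx'
  have h1 := GG_integral hf0 hf0' (fun ζ hζ => (hf ζ hζ).summable)
    (fun ζ hζ => (hf' ζ hζ).summable) hm hm' hm1 hz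
  have h2 := h1.re_ofReal
  have h3 : AnalyticAt ℝ
      (fun y : ℝ => 2 * (∫ t in (0 : ℝ)..(Real.pi / 2), GG f f' ((y : ℂ), t)).re) x :=
    analyticAt_const.mul h2
  refine h3.congr ?_
  filter_upwards [isOpen_Ioo.mem_nhds hx] with y hy
  exact key y (abs_lt.2 hy)

end Pool.Agent.XQ.U.H81
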