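import Pool.Agent.Helper81_XQ.KeyA
import Pool.Agent.Helper35_AEU.Geo

/-! Squad XQ, module KEY: comparison of the items. -/

set_option autoImplicit false

namespace Pool.Agent.XQ.H81

open MeasureTheory Complex Filter Topology Pool.Agent.H16Iso Pool.Agent.H62T
open Pool.Agent.H16F (Sublin ind)
open Pool.Agent.AEU Pool.Agent.AEU.H35 Pool.Agent.XQ

/-- classes of triples -/
def cA (L : ℝ) (S : Finset HP) : Prop := ∃ c c', KA S L c c'
/-- classes of triples -/
def cH (L : ℝ) (S : Finset HP) : Prop := ∃ c, KAh S L c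
/-- classes of triples -/
def cB (L : ℝ) (S : Finset HP) : Prop := ∃ c a b, KB S L c a b ∨ KBa S L c a b
/-- classes of triples -/
def cR (L : ℝ) (S : Finset HP) : Prop := ∃ a b, KBr S L a b
/-- classes of triples -/
def cAc (L : ℝ) (S : Finset HP) : Prop := Acute S ∧ ell S < L

section
open Classical

/-- contribution without the old part -/
noncomputable def ee (L : ℝ) (S : Finset HP) (κ : ℝ) : ℝ :=
  Lap (EZs S) κ - (if cAc L S then germD (ell S) κ else 0)

/-- the germ -/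
noncomputable def mm (L : ℝ) (fA : Finset HP → ℝ × ℝ) (fH : Finset HP → ℝ)
    (fB : Finset HP → ℝ × ℝ) (S : Finset HP) (κ : ℝ) : ℝ :=
  (if KGh S L then -Real.exp (-(L * κ)) else 0)
    + (if cA L S then germA (L / 2) (fA S).1 (fA S).2 κ else 0)
    + (if cH L S then 1 / 2 * germB (L / 2) (fH S) 0 κ else 0)
    + (if cB L S then germB (L / 2) (fB S).1 (fB S).2 κ else 0)
    + (if cR L S then -(1 / 2 * Real.exp (-(L * κ))) else 0)
    + (if KIso S L then ee L S κ else 0)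

end

/-- exclusion of the kinds -/
structure Exc (L : ℝ) (S : Finset HP) : Prop where
  o : Old S L → ¬ KGh S L ∧ ¬ cA L S ∧ ¬ cH L S ∧ ¬ cB L S ∧ ¬ cR L S ∧ ¬ KIso S L ∧ cAc L S
  g : KGh S L → ¬ Old S L ∧ ¬ cA L S ∧ ¬ cH L S ∧ ¬ cB L S ∧ ¬ cR L S ∧ ¬ KIso S L ∧ ¬ cAc L S
  a : cA L S → ¬ Old S L ∧ ¬ KGh S L ∧ ¬ cH L S ∧ ¬ cB L S ∧ ¬ cR L S ∧ ¬ KIso S L ∧ ¬ cAc L S
  h : cH L S → ¬ Old S L ∧ ¬ KGh S L ∧ ¬ cA L S ∧ ¬ cB L S ∧ ¬ cR L S ∧ ¬ KIso S L ∧ ¬ cAc L S
  b : cB L S → ¬ Old S L ∧ ¬ KGh S L ∧ ¬ cA L S ∧ ¬ cH L S ∧ ¬ cR L S ∧ ¬ KIso S L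
  r : cR L S → ¬ Old S L ∧ ¬ KGh S L ∧ ¬ cA L S ∧ ¬ cH L S ∧ ¬ cB L S ∧ ¬ KIso S L ∧ ¬ cAc L S
  i : KIso S L → ¬ Old S L ∧ ¬ KGh S L ∧ ¬ cA L S ∧ ¬ cH L S ∧ ¬ cB L S ∧ ¬ cR L S ∧ cAc L S
  kb : ∀ c a b, KB S L c a b → ¬ cAc L S
  kba : ∀ c a b, KBa S L c a b → cAc L S
  b2 : ∀ c a b c' a' b', KB S L c a b ∨ KBa S L c a b → KB S L c' a' b' ∨ KBa S L c' a' b' →
    c = c' ∧ ((a = a' ∧ b = b') ∨ (a = b' ∧ b = a'))
  a2 : ∀ c d c' d', KA S L c d → KA S L c' d' → (c = c' ∧ d = d') ∨ (c = d' ∧ d = c')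

lemma exc (hK : KexStatement) {L : ℝ} (hL : 0 < L) (S : Finset HP) : Exc L S := by
  obtain ⟨k1, k2, k3, k4, k5, k6, k7, k8, k9, k10, k11⟩ := hK S L hL
  refine ⟨?_, ?_, ?_, ?_, ?_, ?_, ?_, ?_, ?_, k8, k9⟩
  · intro h
    obtain ⟨a1, a2, a3, a4, a5, a6⟩ := k2 (Or.inl h)
    refine ⟨k1 h, ?_, ?_, ?_, ?_, a6, k10 (Or.inl h)⟩
    · rintro ⟨c, c', h'⟩; exact a1 c c' h'
    · rintro ⟨c, h'⟩; exact a2 c h'
    · rintro ⟨c, a, b, h' | h'⟩
      · exact a3 c a b h'
      · exact a5 c a b h'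
    · rintro ⟨a, b, h'⟩; exact a4 a b h'
  · intro h
    obtain ⟨a1, a2, a3, a4, a5, a6⟩ := k2 (Or.inr h)
    refine ⟨fun h' => k1 h' h, ?_, ?_, ?_, ?_, a6, k11 (Or.inl h)⟩
    · rintro ⟨c, c', h'⟩; exact a1 c c' h'
    · rintro ⟨c, h'⟩; exact a2 c h'
    · rintro ⟨c, a, b, h' | h'⟩
      · exact a3 c a b h'
      · exact a5 c a b h'
    · rintro ⟨a, b, h'⟩; exact a4 a b h'
  · rintro ⟨c, c', h⟩
    obtain ⟨a2, a3, a4, a5, a6⟩ := k3 c c' h
    refine ⟨fun h' => (k2 (Or.inl h')).1 c c' h, fun h' => (k2 (Or.inr h')).1 c c' h, ?_, ?_, ?_,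
      a6, k11 (Or.inr (Or.inl ⟨c, c', h⟩))⟩
    · rintro ⟨c, h'⟩; exact a2 c h'
    · rintro ⟨c, a, b, h' | h'⟩
      · exact a3 c a b h'
      · exact a5 c a b h'
    · rintro ⟨a, b, h'⟩; exact a4 a b h'
  · rintro ⟨c, h⟩
    obtain ⟨a3, a4, a5, a6⟩ := k4 c h
    refine ⟨fun h' => (k2 (Or.inl h')).2.1 c h, fun h' => (k2 (Or.inr h')).2.1 c h, ?_, ?_, ?_,
      a6, k11 (Or.inr (Or.inr (Or.inl ⟨c, h⟩)))⟩
    · rintro ⟨d, d', h'⟩; exact (k3 d d' h').1 c h
    · rintro ⟨c, a, b, h' | h'⟩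
      · exact a3 c a b h'
      · exact a5 c a b h'
    · rintro ⟨a, b, h'⟩; exact a4 a b h'
  · rintro ⟨c, a, b, h | h⟩
    · obtain ⟨a4, a5, a6⟩ := k5 c a b h
      refine ⟨fun h' => (k2 (Or.inl h')).2.2.1 c a b h, fun h' => (k2 (Or.inr h')).2.2.1 c a b h,
        ?_, ?_, ?_, a6⟩
      · rintro ⟨d, d', h'⟩; exact (k3 d d' h').2.1 c a b h
      · rintro ⟨d, h'⟩; exact (k4 d h').1 c a b h
      · rintro ⟨a, b, h'⟩; exact a4 a b h'
    · refine ⟨fun h' => (k2 (Or.inl h')).2.2.2.2.1 c a b h,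
        fun h' => (k2 (Or.inr h')).2.2.2.2.1 c a b h, ?_, ?_, ?_, k7 c a b h⟩
      · rintro ⟨d, d', h'⟩; exact (k3 d d' h').2.2.2.1 c a b h
      · rintro ⟨d, h'⟩; exact (k4 d h').2.2.1 c a b h
      · rintro ⟨a', b', h'⟩; exact (k6 a' b' h').1 c a b h
  · rintro ⟨a, b, h⟩
    obtain ⟨a5, a6⟩ := k6 a b h
    refine ⟨fun h' => (k2 (Or.inl h')).2.2.2.1 a b h, fun h' => (k2 (Or.inr h')).2.2.2.1 a b h,
      ?_, ?_, ?_, a6, k11 (Or.inr (Or.inr (Or.inr (Or.inr ⟨a, b, h⟩))))⟩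
    · rintro ⟨d, d', h'⟩; exact (k3 d d' h').2.2.1 a b h
    · rintro ⟨d, h'⟩; exact (k4 d h').2.1 a b h
    · rintro ⟨c', a', b', h' | h'⟩
      · exact (k5 c' a' b' h').1 a b h
      · exact a5 c' a' b' h'
  · intro h
    refine ⟨fun h' => (k2 (Or.inl h')).2.2.2.2.2 h, fun h' => (k2 (Or.inr h')).2.2.2.2.2 h,
      ?_, ?_, ?_, ?_, k10 (Or.inr (Or.inr h))⟩
    · rintro ⟨d, d', h'⟩; exact (k3 d d' h').2.2.2.2 h
    · rintro ⟨d, h'⟩; exact (k4 d h').2.2.2 h
    · rintro ⟨c', a', b', h' | h'⟩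
      · exact (k5 c' a' b' h').2.2 h
      · exact k7 c' a' b' h' h
    · rintro ⟨a', b', h'⟩; exact (k6 a' b' h').2 h
  · intro c a b h
    exact k11 (Or.inr (Or.inr (Or.inr (Or.inl ⟨c, a, b, h⟩))))
  · intro c a b h
    exact k10 (Or.inr (Or.inl ⟨c, a, b, h⟩))

/-- the germs of the kinds, with the parameters chosen -/
structure Dat (L : ℝ) (fA : Finset HP → ℝ × ℝ) (fH : Finset HP → ℝ) (fB : Finset HP → ℝ × ℝ) :
    Prop where
  o : ∀ S, Old S L → Small L fun κ => Lap (EZs S) κ - germD (ell S) κ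
  g : ∀ S, KGh S L → Small L fun κ => Lap (EZs S) κ + Real.exp (-(L * κ))
  a : ∀ S, cA L S → OkA (fA S) ∧ KA S L (Real.cos (fA S).1) (Real.cos (fA S).2) ∧
    Small L fun κ => Lap (EZs S) κ - germA (L / 2) (fA S).1 (fA S).2 κ
  h : ∀ S, cH L S → (Real.pi / 2 < fH S ∧ fH S < Real.pi) ∧
    Small L fun κ => Lap (EZs S) κ - 1 / 2 * germB (L / 2) (fH S) 0 κ
  b : ∀ S, cB L S → OkB (fB S) ∧
    ((KB S L (-Real.cos (fB S).1) (-Real.sin (fB S).2) (-Real.sin ((fB S).1 - (fB S).2)) ∧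
        Small L fun κ => Lap (EZs S) κ - germB (L / 2) (fB S).1 (fB S).2 κ) ∨
      (KBa S L (-Real.cos (fB S).1) (-Real.sin (fB S).2) (-Real.sin ((fB S).1 - (fB S).2)) ∧
        Small L fun κ => Lap (EZs S) κ
          - (germB (L / 2) (fB S).1 (fB S).2 κ + germD (ell S) κ)))
  r : ∀ S, cR L S → Small L fun κ => Lap (EZs S) κ + 1 / 2 * Real.exp (-(L * κ))
  i : ∀ S, KIso S L → LB L fun κ => Lap (EZs S) κ - germD (ell S) κ

lemma dat (hI : ItgStatement) (g1 : GermAStmt) (g2 : GermBStmt) (g3 : GermB'Stmt)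
    (g4 : GermDXStmt) (g5 : GermIsoStmt) (g6 : GermAhStmt) (g7 : GermBrStmt) {L : ℝ}
    (hL : 0 < L) : ∃ fA fH fB, Dat L fA fH fB := by
  classical
  have key := fun S => hI g1 g2 g3 g4 g5 g6 g7 S L hL
  have hA : ∀ S, ∃ p : ℝ × ℝ, cA L S → OkA p ∧ KA S L (Real.cos p.1) (Real.cos p.2) ∧
      Small L fun κ => Lap (EZs S) κ - germA (L / 2) p.1 p.2 κ := by
    intro S
    by_cases h : cA L S
    · obtain ⟨c, c', h⟩ := h
      obtain ⟨β, β', h1, rfl, rfl, h3⟩ := (key S).2.2.1 c c' h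
      exact ⟨(β, β'), fun _ => ⟨h1, h, h3⟩⟩
    · exact ⟨(0, 0), fun h' => absurd h' h⟩
  have hH : ∀ S, ∃ p : ℝ, cH L S → (Real.pi / 2 < p ∧ p < Real.pi) ∧
      Small L fun κ => Lap (EZs S) κ - 1 / 2 * germB (L / 2) p 0 κ := by
    intro S
    by_cases h : cH L S
    · obtain ⟨c, h⟩ := h
      obtain ⟨α, h1, h2, rfl, h3⟩ := (key S).2.2.2.1 c h
      exact ⟨α, fun _ => ⟨⟨h1, h2⟩, h3⟩⟩
    · exact ⟨0, fun h' => absurd h' h⟩
  have hB : ∀ S, ∃ p : ℝ × ℝ, cB L S → OkB p ∧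
    ((KB S L (-Real.cos p.1) (-Real.sin p.2) (-Real.sin (p.1 - p.2)) ∧
        Small L fun κ => Lap (EZs S) κ - germB (L / 2) p.1 p.2 κ) ∨
      (KBa S L (-Real.cos p.1) (-Real.sin p.2) (-Real.sin (p.1 - p.2)) ∧
        Small L fun κ => Lap (EZs S) κ - (germB (L / 2) p.1 p.2 κ + germD (ell S) κ))) := by
    intro S
    by_cases h : cB L S
    · obtain ⟨c, a, b, h | h⟩ := h
      · obtain ⟨α, η, h1, _, _, _, rfl, rfl, rfl, h3⟩ := (key S).2.2.2.2.1 c a b h
        exact ⟨(α, η), fun _ => ⟨h1, Or.inl ⟨h, h3⟩⟩⟩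
      · obtain ⟨α, η, h1, _, _, _, rfl, rfl, rfl, h3⟩ := (key S).2.2.2.2.2.2.1 c a b h
        exact ⟨(α, η), fun _ => ⟨h1, Or.inr ⟨h, h3⟩⟩⟩
    · exact ⟨(0, 0), fun h' => absurd h' h⟩
  choose fA hfA using hA
  choose fH hfH using hH
  choose fB hfB using hB
  exact ⟨fA, fH, fB, ⟨fun S => (key S).1, fun S => (key S).2.1, hfA, hfH, hfB,
    fun S => (key S).2.2.2.2.2.1, fun S => (key S).2.2.2.2.2.2.2⟩⟩

lemma em_small (hK : KexStatement) {L : ℝ} (hL : 0 < L) {fA fH fB} (D : Dat L fA fH fB)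
    (S : Finset HP) (hS : KindQ S L) : Small L fun κ => ee L S κ - mm L fA fH fB S κ := by
  have E := exc hK hL S
  have cases : Old S L ∨ KGh S L ∨ cA L S ∨ cB L S ∨ cH L S ∨ cR L S ∨ KIso S L := by
    rcases hS with (h | h | h | ⟨c, a, b, h⟩ | ⟨c, a, b, h⟩) | h | h | h
    · exact Or.inl h
    · exact Or.inr (Or.inl h)
    · exact Or.inr (Or.inr (Or.inl h))
    · exact Or.inr (Or.inr (Or.inr (Or.inl ⟨c, a, b, Or.inl h⟩)))
    · exact Or.inr (Or.inr (Or.inr (Or.inl ⟨c, a, b, Or.inr h⟩)))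
    · exact Or.inr (Or.inr (Or.inr (Or.inr (Or.inl h))))
    · exact Or.inr (Or.inr (Or.inr (Or.inr (Or.inr (Or.inl h)))))
    · exact Or.inr (Or.inr (Or.inr (Or.inr (Or.inr (Or.inr h)))))
  rcases cases with h | h | h | h | h | h | h
  · obtain ⟨a1, a2, a3, a4, a5, a6, a7⟩ := E.o h
    refine small_congr (D.o S h) (Eventually.of_forall fun κ => ?_)
    simp only [ee, mm, if_neg a1, if_neg a2, if_neg a3, if_neg a4, if_neg a5, if_neg a6,
      if_pos a7]
    ring
  · obtain ⟨a1, a2, a3, a4, a5, a6, a7⟩ := E.g h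
    refine small_congr (D.g S h) (Eventually.of_forall fun κ => ?_)
    simp only [ee, mm, if_pos h, if_neg a2, if_neg a3, if_neg a4, if_neg a5, if_neg a6,
      if_neg a7]
    ring
  · obtain ⟨a1, a2, a3, a4, a5, a6, a7⟩ := E.a h
    refine small_congr (D.a S h).2.2 (Eventually.of_forall fun κ => ?_)
    simp only [ee, mm, if_pos h, if_neg a2, if_neg a3, if_neg a4, if_neg a5, if_neg a6,
      if_neg a7]
    ring
  · obtain ⟨a1, a2, a3, a4, a5, a6⟩ := E.b h
    obtain ⟨_, h' | h'⟩ := D.b S h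
    · have a7 := E.kb _ _ _ h'.1
      refine small_congr h'.2 (Eventually.of_forall fun κ => ?_)
      simp only [ee, mm, if_pos h, if_neg a2, if_neg a3, if_neg a4, if_neg a5, if_neg a6,
        if_neg a7]
      ring
    · have a7 := E.kba _ _ _ h'.1
      refine small_congr h'.2 (Eventually.of_forall fun κ => ?_)
      simp only [ee, mm, if_pos h, if_neg a2, if_neg a3, if_neg a4, if_neg a5, if_neg a6,
        if_pos a7]
      ring
  · obtain ⟨a1, a2, a3, a4, a5, a6, a7⟩ := E.h h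
    refine small_congr (D.h S h).2 (Eventually.of_forall fun κ => ?_)
    simp only [ee, mm, if_pos h, if_neg a2, if_neg a3, if_neg a4, if_neg a5, if_neg a6,
      if_neg a7]
    ring
  · obtain ⟨a1, a2, a3, a4, a5, a6, a7⟩ := E.r h
    refine small_congr (D.r S h) (Eventually.of_forall fun κ => ?_)
    simp only [ee, mm, if_pos h, if_neg a2, if_neg a3, if_neg a4, if_neg a5, if_neg a6,
      if_neg a7]
    ring
  · obtain ⟨a1, a2, a3, a4, a5, a6, a7⟩ := E.i h
    refine small_congr (small_zero L) (Eventually.of_forall fun κ => ?_)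
    simp only [mm, if_pos h, if_neg a2, if_neg a3, if_neg a4, if_neg a5, if_neg a6]
    ring

section
open Classical

lemma sum_list {α β : Type} (s : Finset α) (f : α → β) (g : β → ℝ) :
    ((s.toList.map f).map g).sum = ∑ a ∈ s, g (f a) := by
  rw [List.map_map, Finset.sum_map_toList]
  rfl

lemma sum_mm {L : ℝ} {fA fH fB} (N : Finset (Finset HP)) (κ : ℝ) :
    ∑ S ∈ N, mm L fA fH fB S κ =
      -((N.filter fun S => KGh S L).card : ℝ) * Real.exp (-(L * κ))
      + SumA L ((N.filter (cA L)).toList.map fA) κ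
      + SumH L ((N.filter (cH L)).toList.map fH) κ
      + SumB L ((N.filter (cB L)).toList.map fB) κ
      - ((N.filter (cR L)).card : ℝ) / 2 * Real.exp (-(L * κ))
      + ∑ S ∈ N.filter (fun S => KIso S L), ee L S κ := by
  unfold mm SumA SumH SumB
  rw [sum_list, sum_list, sum_list]
  simp only [Finset.sum_add_distrib, Finset.sum_filter, Finset.card_filter]
  push_cast
  simp only [Finset.sum_mul, Finset.sum_div, ← Finset.sum_neg_distrib, neg_mul, sub_eq_add_neg]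
  congr 1
  congr 1
  · congr 1
    congr 1
    congr 1
    refine Finset.sum_congr rfl fun S _ => ?_
    split_ifs <;> ring
  · refine Finset.sum_congr rfl fun S _ => ?_
    split_ifs <;> ring

lemma sum_old {NP NQ : Finset (Finset HP)} {L : ℝ}
    (h : ∀ l : ℝ, l < L → (NP.filter fun S => Acute S ∧ ell S = l).card
      = (NQ.filter fun S => Acute S ∧ ell S = l).card) (g : ℝ → ℝ) :
    ∑ S ∈ NP, (if cAc L S then g (ell S) else 0) = ∑ S ∈ NQ, (if cAc L S then g (ell S) else 0) := by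
  rw [← Finset.sum_filter, ← Finset.sum_filter]
  have key : (NP.filter (cAc L)).val.map ell = (NQ.filter (cAc L)).val.map ell := by
    apply Multiset.ext.mpr
    intro l
    have aux : ∀ N : Finset (Finset HP), Multiset.count l ((N.filter (cAc L)).val.map ell) =
        if l < L then (N.filter fun S => Acute S ∧ ell S = l).card else 0 := by
      intro N
      rw [Multiset.count_map]
      change ((N.filter (cAc L)).filter (fun S => l = ell S)).card = _
      rw [Finset.filter_filter]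
      split_ifs with hl
      · congr 1
        apply Finset.filter_congr
        intro S _
        constructor
        · rintro ⟨h1, h2⟩
          exact ⟨h1.1, h2.symm⟩
        · rintro ⟨h1, h2⟩
          exact ⟨⟨h1, h2 ▸ hl⟩, h2.symm⟩
      · rw [Finset.card_eq_zero, Finset.filter_eq_empty_iff]
        rintro S _ ⟨h1, h2⟩
        exact hl (h2 ▸ h1.2)
    rw [aux, aux]
    split_ifs with hl
    · exact h l hl
    · rfl
  have e : ∀ N : Finset (Finset HP), ∑ S ∈ N.filter (cAc L), g (ell S) =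
      (((N.filter (cAc L)).val.map ell).map g).sum := by
    intro N
    rw [Multiset.map_map]
    rfl
  rw [e, e, key]

end

lemma ka_swap {S : Finset HP} {L c c' : ℝ} (h : KA S L c c') : KA S L c' c := by
  obtain ⟨i, j, k, h1, h2, h3⟩ := h
  exact ⟨k, j, i, by rw [h1, rev123], h2, isA_rev h3⟩

lemma kb_isB {S : Finset HP} {L c a b : ℝ} (h : KB S L c a b ∨ KBa S L c a b) :
    ∃ i j q, S = {i, j, q} ∧ S.card = 3 ∧ IsB i j q L c a b := by
  rcases h with ⟨i, j, q, h1, h2, h3, _⟩ | ⟨i, j, q, h1, h2, h3, _⟩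
  · exact ⟨i, j, q, h1, h2, h3⟩
  · exact ⟨i, j, q, h1, h2, h3⟩

lemma kb_isB' {S : Finset HP} {L c a b : ℝ} (h : KB S L c a b ∨ KBa S L c a b) :
    ∃ i j q, S = {i, j, q} ∧ S.card = 3 ∧ IsB i j q L c b a := by
  obtain ⟨i, j, q, h1, h2, h3⟩ := kb_isB h
  exact ⟨j, i, q, by rw [h1, swap12], h2, isB_swap h3⟩

/-- comparison of the parameters of type A -/
lemma cmpA {L : ℝ} {S S' : Finset HP} {c c' : ℝ} {p q : ℝ × ℝ} (hE : Exc L S)
    (h : KA S L c c') (hp : KA S L (Real.cos p.1) (Real.cos p.2))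
    (hq : KA S' L (Real.cos q.1) (Real.cos q.2)) (hpq : p = q ∨ p = q.swap) : KA S' L c c' := by
  have h1 : KA S' L (Real.cos p.1) (Real.cos p.2) := by
    rcases hpq with h | h
    · rw [h]; exact hq
    · rw [h]; exact ka_swap hq
  rcases hE.a2 _ _ _ _ h hp with ⟨h2, h3⟩ | ⟨h2, h3⟩
  · rw [h2, h3]; exact h1
  · rw [h2, h3]; exact ka_swap h1

/-- comparison of the parameters of type B -/
lemma cmpB {L : ℝ} {S S' : Finset HP} {c a b : ℝ} {p q : ℝ × ℝ} (hE : Exc L S)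
    (h : KB S L c a b ∨ KBa S L c a b)
    (hp : KB S L (-Real.cos p.1) (-Real.sin p.2) (-Real.sin (p.1 - p.2)) ∨
      KBa S L (-Real.cos p.1) (-Real.sin p.2) (-Real.sin (p.1 - p.2)))
    (hq : KB S' L (-Real.cos q.1) (-Real.sin q.2) (-Real.sin (q.1 - q.2)) ∨
      KBa S' L (-Real.cos q.1) (-Real.sin q.2) (-Real.sin (q.1 - q.2)))
    (h1 : p.1 = q.1) (h2 : p.2 = q.2 ∨ p.2 = q.1 - q.2) :
    ∃ i j k, S' = {i, j, k} ∧ S'.card = 3 ∧ IsB i j k L c a b := by
  obtain ⟨hc, hab⟩ := hE.b2 _ _ _ _ _ _ h hp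
  have e : q.1 - (q.1 - q.2) = q.2 := by ring
  rcases h2 with h2 | h2 <;> rcases hab with ⟨ha, hb⟩ | ⟨ha, hb⟩ <;>
    rw [h1, h2] at * <;> rw [hc, ha, hb]
  · exact kb_isB hq
  · exact kb_isB' hq
  · rw [e]; exact kb_isB' hq
  · rw [e]; exact kb_isB hq

theorem key : KeyStatement := by
  classical
  intro hU hItg hIte hKex gA gB gB' gDX gIs gAh gBr gE2 gE1 g3 g4 P Q L δ M NP NQ TP TQ cP cQ KP KQ
    γ hG hS J hJ hsm
  have hL : 0 < L := hS.L0
  obtain ⟨fA, fH, fB, D⟩ := dat hItg gA gB gB' gDX gIs gAh gBr hL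
  have E := fun S => exc hKex hL S
  -- torn bodies
  set tm : Finset HP → ℝ → ℝ := fun F => Lap (EAr (Mp F (cP F)) (Mm F (cP F))) with htm
  set tq : Finset HP → ℝ → ℝ := fun F => Lap (EAr (Mp F (cQ F)) (Mm F (cQ F))) with htq
  set sg : Finset HP → ℝ := fun F => (-1 : ℝ) ^ (Mm F (cP F)).card with hsg
  set CE : Finset HP → Prop := fun F => ∃ α θ γ, StdE F (Mm F (cP F)) L α θ γ ∧
      ∀ n : ℤ, 4 * Real.cos (2 * Real.pi * θ / α) ≠ n with hCE
  have iteP := fun F hF => hIte gE2 gE1 g3 g4 P F (KP F) L (cP F) hL (hS.pP.torn F hF).2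
  have iteQ := fun F hF => hIte gE2 gE1 g3 g4 Q F (KQ F) L (cQ F) hL (hS.pQ.torn F hF).2
  have hfE : ∀ F, ∃ p : ℝ × ℝ × ℝ, F ∈ TP → CE F →
      StdE F (Mm F (cP F)) L p.1 p.2.1 p.2.2 ∧ OkE p ∧
      Small L fun κ => sg F * tm F κ - germE L (Real.pi / p.1) p.2.1 p.2.2 κ := by
    intro F
    by_cases h : F ∈ TP ∧ CE F
    · obtain ⟨h0, α, θ, γ', h1, h2⟩ := h
      obtain ⟨h3, h4⟩ := (iteP F h0).1 α θ γ' h1 h2
      exact ⟨(α, θ, γ'), fun _ _ => ⟨h1, h3, h4⟩⟩
    · exact ⟨(0, 0, 0), fun h1 h2 => absurd ⟨h1, h2⟩ h⟩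
  choose fE hfE using hfE
  set sE := TP.filter CE with hsE
  set s3 := TP.filter (fun F => ¬ CE F ∧ Std3 F (Mm F (cP F)) L) with hs3
  set s4 := TP.filter (fun F => ¬ CE F ∧ ¬ Std3 F (Mm F (cP F)) L) with hs4
  have hsplit : ∀ f : Finset HP → ℝ, ∑ F ∈ TP, f F = ∑ F ∈ sE, f F + (∑ F ∈ s3, f F + ∑ F ∈ s4, f F) := by
    intro f
    rw [← Finset.sum_filter_add_sum_filter_not TP CE]
    congr 1
    rw [← Finset.sum_filter_add_sum_filter_not (TP.filter fun F => ¬ CE F)
      (fun F => Std3 F (Mm F (cP F)) L), Finset.filter_filter, Finset.filter_filter]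
  have std4 : ∀ F ∈ s4, Std4 F (Mm F (cP F)) L := by
    intro F hF
    rw [hs4, Finset.mem_filter] at hF
    rcases hS.tP F hF.1 with h | h | h
    · exact absurd h hF.2.1
    · exact absurd h hF.2.2
    · exact h
  set T : ℝ → ℝ := fun κ => ∑ F ∈ s3, sg F * tm F κ + ∑ F ∈ s4, sg F * tm F κ - ∑ F ∈ TQ, tq F κ
    with hT
  obtain ⟨hT1, hT2⟩ := tornT (L := L) s3 s4 TQ tm tq sg
    (fun F hF => by
      rw [hs3, Finset.mem_filter] at hF
      exact (iteP F hF.1).2.1 hF.2.2)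
    (fun F hF => by
      have h1 := std4 F hF
      rw [hs4, Finset.mem_filter] at hF
      exact ((iteP F hF.1).2.2 h1).2)
    (fun F hF => (iteQ F hF).2.1 (hS.tQ F hF).1)
    (fun F => neg_one_pow_eq_or ℝ _)
    (fun F hF => by
      have h1 := std4 F hF
      rw [hs4, Finset.mem_filter] at hF
      rw [hsg]
      simp only
      rw [((iteP F hF.1).2.2 h1).1, pow_one])
    (fun F hF F' hF' => by
      rw [hs3, Finset.mem_filter] at hF hF'
      exact hS.t3 F hF.1 F' hF'.1 hF.2.2 hF'.2.2)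
    (fun h => by
      rw [hs3, Finset.filter_eq_empty_iff]
      rintro F hF ⟨_, h2⟩
      exact hS.t34 h F hF h2)
    T hT
  -- the lists
  set EP := sE.toList.map fE with hEP
  set AP := (NP.filter (cA L)).toList.map fA with hAP
  set AQ := (NQ.filter (cA L)).toList.map fA with hAQ
  set BP := (NP.filter (cB L)).toList.map fB with hBP
  set BQ := (NQ.filter (cB L)).toList.map fB with hBQ
  set HQ := (NQ.filter (cH L)).toList.map fH with hHQ
  set gP := (NP.filter fun S => KGh S L).card with hgP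
  set gQ := (NQ.filter fun S => KGh S L).card with hgQ
  set r := (NQ.filter (cR L)).card with hr
  set J' : ℝ → ℝ := fun κ => J κ + ∑ S ∈ NQ.filter (fun S => KIso S L), ee L S κ with hJ'
  have kP : ∀ S ∈ NP, KindQ S L := fun S h => Or.inl (hS.kP S h)
  have kPn : ∀ S ∈ NP, ¬ cH L S ∧ ¬ cR L S ∧ ¬ KIso S L := by
    intro S h
    rcases hS.kP S h with h | h | h | ⟨c, a, b, h⟩ | ⟨c, a, b, h⟩
    · have := (E S).o h
      exact ⟨this.2.2.1, this.2.2.2.2.1, this.2.2.2.2.2.1⟩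
    · have := (E S).g h
      exact ⟨this.2.2.1, this.2.2.2.2.1, this.2.2.2.2.2.1⟩
    · have := (E S).a h
      exact ⟨this.2.2.1, this.2.2.2.2.1, this.2.2.2.2.2.1⟩
    · have := (E S).b ⟨c, a, b, Or.inl h⟩
      exact ⟨this.2.2.2.1, this.2.2.2.2.1, this.2.2.2.2.2⟩
    · have := (E S).b ⟨c, a, b, Or.inr h⟩
      exact ⟨this.2.2.2.1, this.2.2.2.2.1, this.2.2.2.2.2⟩
  have eH : NP.filter (cH L) = ∅ := Finset.filter_eq_empty_iff.mpr fun S h => (kPn S h).1
  have eR : NP.filter (cR L) = ∅ := Finset.filter_eq_empty_iff.mpr fun S h => (kPn S h).2.1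
  have eI : NP.filter (fun S => KIso S L) = ∅ :=
    Finset.filter_eq_empty_iff.mpr fun S h => (kPn S h).2.2
  -- lower bounds
  have lbI : ∀ S, KIso S L → LB L (ee L S) := by
    intro S h
    have h1 := D.i S h
    have h2 := ((E S).i h).2.2.2.2.2.2
    have : ee L S = fun κ => Lap (EZs S) κ - germD (ell S) κ := by
      funext κ
      unfold ee
      rw [if_pos h2]
    rw [this]
    exact h1
  have lbS := lb_sum (L := L) (NQ.filter fun S => KIso S L) (ee L)
    (fun S h => lbI S (Finset.mem_filter.mp h).2)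
  have hJ1 : J' = 0 ∨ LB L J' := by
    rcases lbS with h | h
    · have : J' = J := by
        rw [hJ', h]
        funext κ
        simp
      rw [this]
      exact hJ
    · right
      rcases hJ with h0 | h0
      · rw [hJ', h0]
        simpa using h
      · exact LB.add h0 h
  -- the big estimate
  have hbig : Small L fun κ =>
      (-(gP : ℝ) * Real.exp (-(L * κ)) + SumA L AP κ + SumB L BP κ + SumE L EP κ + T κ)
      - (-(gQ : ℝ) * Real.exp (-(L * κ)) - (r : ℝ) / 2 * Real.exp (-(L * κ)) + SumA L AQ κ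
          + SumB L BQ κ + SumH L HQ κ + J' κ) := by
    have h1 : Small L fun κ => ∑ S ∈ NP, (ee L S κ - mm L fA fH fB S κ) :=
      small_sum _ _ fun S h => em_small hKex hL D S (kP S h)
    have h2 : Small L fun κ => ∑ S ∈ NQ, (ee L S κ - mm L fA fH fB S κ) :=
      small_sum _ _ fun S h => em_small hKex hL D S (hS.kQ S h)
    have h3 : Small L fun κ => ∑ F ∈ sE, (sg F * tm F κ
        - germE L (Real.pi / (fE F).1) (fE F).2.1 (fE F).2.2 κ) :=
      small_sum _ _ fun F h => by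
        rw [hsE, Finset.mem_filter] at h
        exact (hfE F h.1 h.2).2.2
    refine small_congr (small_sub (small_add (small_sub hsm h1) h2) h3)
      (Eventually.of_forall fun κ => ?_)
    simp only [Finset.sum_sub_distrib]
    rw [sum_mm, sum_mm, eH, eR, eI]
    have e1 : ∑ S ∈ NP, ee L S κ = ∑ S ∈ NP, Lap (EZs S) κ
        - ∑ S ∈ NP, (if cAc L S then germD (ell S) κ else 0) := by
      rw [← Finset.sum_sub_distrib]
      rfl
    have e2 : ∑ S ∈ NQ, ee L S κ = ∑ S ∈ NQ, Lap (EZs S) κ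
        - ∑ S ∈ NQ, (if cAc L S then germD (ell S) κ else 0) := by
      rw [← Finset.sum_sub_distrib]
      rfl
    have e3 := sum_old hS.old fun l => germD l κ
    have e4 : Df NP NQ TP TQ cP cQ κ = (∑ S ∈ NP, Lap (EZs S) κ + ∑ F ∈ TP, sg F * tm F κ)
        - (∑ S ∈ NQ, Lap (EZs S) κ + ∑ F ∈ TQ, tq F κ) := by
      unfold Df
      congr 2
      refine Finset.sum_congr rfl fun F hF => ?_
      rw [(hS.tQ F hF).2, htq]
      norm_num
    rw [e1, e2, e4, hsplit fun F => sg F * tm F κ]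
    have e5 : SumE L EP κ = ∑ F ∈ sE, germE L (Real.pi / (fE F).1) (fE F).2.1 (fE F).2.2 κ := by
      rw [hEP]
      unfold SumE
      rw [sum_list]
    rw [e5, hJ', hT]
    simp only [SumH, Finset.toList_empty, List.map_nil, List.sum_nil, Finset.card_empty,
      Nat.cast_zero, zero_div, zero_mul, Finset.sum_empty]
    linarith
  -- application of `U`
  have card1 : ∀ C : Finset HP → Prop, (∀ S, C S → ¬ Old S L) → (NP.filter C).card ≤ 1 := by
    intro C hC
    rw [Finset.card_le_one]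
    intro S hS1 S' hS2
    rw [Finset.mem_filter] at hS1 hS2
    exact hS.one S hS1.1 S' hS2.1 (hC S hS1.2) (hC S' hS2.2)
  obtain ⟨u1, u2, u3, u4, u5, u6, u7, u8⟩ := hU L gP gQ r AP AQ BP BQ HQ EP J' T hL
    (card1 _ fun S h => ((E S).g h).1)
    (by
      rw [hr, Finset.card_le_one]
      intro S hS1 S' hS2
      rw [Finset.mem_filter] at hS1 hS2
      exact hS.r90 S hS1.1 S' hS2.1 hS1.2 hS2.2)
    (by
      rw [hAP, List.length_map, Finset.length_toList]
      exact card1 _ fun S h => ((E S).a h).1)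
    (by
      rw [hBP, List.length_map, Finset.length_toList]
      exact card1 _ fun S h => ((E S).b h).1)
    (by
      intro p hp
      rw [hAP, List.mem_map] at hp
      obtain ⟨S, h1, rfl⟩ := hp
      rw [Finset.mem_toList, Finset.mem_filter] at h1
      exact (D.a S h1.2).1)
    (by
      intro p hp
      rw [hAQ, List.mem_map] at hp
      obtain ⟨S, h1, rfl⟩ := hp
      rw [Finset.mem_toList, Finset.mem_filter] at h1
      exact (D.a S h1.2).1)
    (by
      intro p hp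
      rw [hBP, List.mem_map] at hp
      obtain ⟨S, h1, rfl⟩ := hp
      rw [Finset.mem_toList, Finset.mem_filter] at h1
      exact (D.b S h1.2).1)
    (by
      intro p hp
      rw [hBQ, List.mem_map] at hp
      obtain ⟨S, h1, rfl⟩ := hp
      rw [Finset.mem_toList, Finset.mem_filter] at h1
      exact (D.b S h1.2).1)
    (by
      intro p hp
      rw [hHQ, List.mem_map] at hp
      obtain ⟨S, h1, rfl⟩ := hp
      rw [Finset.mem_toList, Finset.mem_filter] at h1
      exact (D.h S h1.2).1)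
    (by
      intro p hp
      rw [hEP, List.mem_map] at hp
      obtain ⟨F, h1, rfl⟩ := hp
      rw [Finset.mem_toList, Finset.mem_filter] at h1
      exact (hfE F h1.1 h1.2).2.1)
    (by
      rw [hEP, List.pairwise_map]
      refine (Finset.nodup_toList _).pairwise_of_forall_ne ?_
      intro F h1 F' h2 hne heq
      rw [Finset.mem_toList, Finset.mem_filter] at h1 h2
      apply hne
      have a1 := (hfE F h1.1 h1.2).1
      have a2 := (hfE F' h2.1 h2.2).1
      rw [← heq] at a2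
      exact hS.tE F h1.1 F' h2.1 _ _ _ _ _ a1 a2)
    hJ1 hT1 hbig
  -- consequences
  have nI : NQ.filter (fun S => KIso S L) = ∅ := by
    rcases lbS with h | h
    · exact h
    · exfalso
      rcases hJ with h0 | h0
      · refine LB.ne (L := L) (f := J') ?_ u1
        rw [hJ', h0]
        simpa using h
      · exact LB.ne (L := L) (f := J') (LB.add h0 h) u1
  obtain ⟨t1, t2, t3⟩ := hT2 u2
  have sE0 : sE = ∅ := by
    rw [hEP, List.map_eq_nil_iff, Finset.toList_eq_nil] at u6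
    exact u6
  refine ⟨?_, ?_, t3, ?_⟩
  · intro hlb
    have : J' = J := by
      rw [hJ', nI]
      funext κ
      simp
    rw [this] at u1
    exact LB.ne (L := L) (f := J) hlb u1
  · rw [Finset.eq_empty_iff_forall_notMem]
    intro F hF
    by_cases h1 : CE F
    · have : F ∈ sE := Finset.mem_filter.mpr ⟨hF, h1⟩
      rw [sE0] at this
      exact Finset.notMem_empty _ this
    · by_cases h2 : Std3 F (Mm F (cP F)) L
      · have : F ∈ s3 := Finset.mem_filter.mpr ⟨hF, h1, h2⟩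
        rw [t1] at this
        exact Finset.notMem_empty _ this
      · have : F ∈ s4 := Finset.mem_filter.mpr ⟨hF, h1, h2⟩
        rw [t2] at this
        exact Finset.notMem_empty _ this
  · have cardA : (NQ.filter (cA L)).card ≤ 1 := by
      rw [← Finset.length_toList, ← List.length_map (f := fA), ← hAQ]
      rcases u7 with ⟨_, h⟩ | ⟨p, q, _, h, _⟩ <;> rw [h] <;> simp
    have cardB : (NQ.filter (cB L)).card ≤ 1 := by
      rw [← Finset.length_toList, ← List.length_map (f := fB), ← hBQ]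
      rcases u8 with ⟨_, h⟩ | ⟨p, q, _, h, _⟩ <;> rw [h] <;> simp
    have memA : ∀ (N : Finset (Finset HP)) (l : List (ℝ × ℝ)),
        l = (N.filter (cA L)).toList.map fA → ∀ S ∈ N, cA L S → fA S ∈ l := by
      intro N l hl S h1 h2
      rw [hl, List.mem_map]
      exact ⟨S, Finset.mem_toList.mpr (Finset.mem_filter.mpr ⟨h1, h2⟩), rfl⟩
    have getA : ∀ (N : Finset (Finset HP)) (q : ℝ × ℝ),
        [q] = (N.filter (cA L)).toList.map fA → ∃ S ∈ N, cA L S ∧ fA S = q := by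
      intro N q hl
      have h1 : q ∈ (N.filter (cA L)).toList.map fA := by rw [← hl]; simp
      rw [List.mem_map] at h1
      obtain ⟨S, h2, h3⟩ := h1
      rw [Finset.mem_toList, Finset.mem_filter] at h2
      exact ⟨S, h2.1, h2.2, h3⟩
    have memB : ∀ (N : Finset (Finset HP)) (l : List (ℝ × ℝ)),
        l = (N.filter (cB L)).toList.map fB → ∀ S ∈ N, cB L S → fB S ∈ l := by
      intro N l hl S h1 h2
      rw [hl, List.mem_map]
      exact ⟨S, Finset.mem_toList.mpr (Finset.mem_filter.mpr ⟨h1, h2⟩), rfl⟩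
    have getB : ∀ (N : Finset (Finset HP)) (q : ℝ × ℝ),
        [q] = (N.filter (cB L)).toList.map fB → ∃ S ∈ N, cB L S ∧ fB S = q := by
      intro N q hl
      have h1 : q ∈ (N.filter (cB L)).toList.map fB := by rw [← hl]; simp
      rw [List.mem_map] at h1
      obtain ⟨S, h2, h3⟩ := h1
      rw [Finset.mem_toList, Finset.mem_filter] at h2
      exact ⟨S, h2.1, h2.2, h3⟩
    have dB : ∀ S, cB L S →
        KB S L (-Real.cos (fB S).1) (-Real.sin (fB S).2) (-Real.sin ((fB S).1 - (fB S).2)) ∨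
        KBa S L (-Real.cos (fB S).1) (-Real.sin (fB S).2) (-Real.sin ((fB S).1 - (fB S).2)) := by
      intro S h
      rcases (D.b S h).2 with h | h
      · exact Or.inl h.1
      · exact Or.inr h.1
    refine ⟨?_, ?_, ?_, ?_, ?_, ?_, ?_, ?_, ?_, ?_, ?_⟩
    · intro S h1 h2
      have : S ∈ NQ.filter (fun S => KIso S L) := Finset.mem_filter.mpr ⟨h1, h2⟩
      rw [nI] at this
      exact Finset.notMem_empty _ this
    · intro S h1 c h2
      have h3 : S ∈ NQ.filter (cH L) := Finset.mem_filter.mpr ⟨h1, c, h2⟩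
      rw [hHQ, List.map_eq_nil_iff, Finset.toList_eq_nil] at u5
      rw [u5] at h3
      exact Finset.notMem_empty _ h3
    · intro S h1 a b h2
      have h3 : S ∈ NQ.filter (cR L) := Finset.mem_filter.mpr ⟨h1, a, b, h2⟩
      rw [hr, Finset.card_eq_zero] at u4
      rw [u4] at h3
      exact Finset.notMem_empty _ h3
    · constructor
      · rintro ⟨S, h1, h2⟩
        have h3 : 0 < gP := Finset.card_pos.mpr ⟨S, Finset.mem_filter.mpr ⟨h1, h2⟩⟩
        rw [u3] at h3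
        obtain ⟨S', h4⟩ := Finset.card_pos.mp h3
        rw [Finset.mem_filter] at h4
        exact ⟨S', h4⟩
      · rintro ⟨S, h1, h2⟩
        have h3 : 0 < gQ := Finset.card_pos.mpr ⟨S, Finset.mem_filter.mpr ⟨h1, h2⟩⟩
        rw [← u3] at h3
        obtain ⟨S', h4⟩ := Finset.card_pos.mp h3
        rw [Finset.mem_filter] at h4
        exact ⟨S', h4⟩
    · intro S h1 S' h2 h3 h4
      have h5 : gQ ≤ 1 := by
        rw [← u3]
        exact card1 _ fun S h => ((E S).g h).1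
      rw [hgQ, Finset.card_le_one] at h5
      exact h5 S (Finset.mem_filter.mpr ⟨h1, h3⟩) S' (Finset.mem_filter.mpr ⟨h2, h4⟩)
    · intro S h1 c c' h2
      have h3 := memA NP AP hAP S h1 ⟨c, c', h2⟩
      rcases u7 with ⟨h, _⟩ | ⟨p, q, h, h', hpq⟩
      · rw [h] at h3
        simp at h3
      · rw [h, List.mem_singleton] at h3
        obtain ⟨S', h4, h5, h6⟩ := getA NQ q (by rw [← h', hAQ])
        refine ⟨S', h4, cmpA (E S) h2 (D.a S ⟨c, c', h2⟩).2.1 (D.a S' h5).2.1 ?_⟩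
        rw [h3, h6]
        exact hpq
    · intro S h1 c c' h2
      have h3 := memA NQ AQ hAQ S h1 ⟨c, c', h2⟩
      rcases u7 with ⟨_, h⟩ | ⟨p, q, h, h', hpq⟩
      · rw [h] at h3
        simp at h3
      · rw [h', List.mem_singleton] at h3
        obtain ⟨S', h4, h5, h6⟩ := getA NP p (by rw [← h, hAP])
        refine ⟨S', h4, cmpA (E S) h2 (D.a S ⟨c, c', h2⟩).2.1 (D.a S' h5).2.1 ?_⟩
        rw [h3, h6]
        rcases hpq with h | h
        · exact Or.inl h.symm
        · right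
          rw [h, Prod.swap_swap]
    · intro S h1 S' h2 c c' d d' h3 h4
      rw [Finset.card_le_one] at cardA
      exact cardA S (Finset.mem_filter.mpr ⟨h1, c, c', h3⟩) S' (Finset.mem_filter.mpr ⟨h2, d, d', h4⟩)
    · intro S h1 c a b h2
      have h3 := memB NP BP hBP S h1 ⟨c, a, b, h2⟩
      rcases u8 with ⟨h, _⟩ | ⟨p, q, h, h', h8, h9⟩
      · rw [h] at h3
        simp at h3
      · rw [h, List.mem_singleton] at h3
        obtain ⟨S', h4, h5, h6⟩ := getB NQ q (by rw [← h', hBQ])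
        refine ⟨S', h4, cmpB (E S) h2 (dB S ⟨c, a, b, h2⟩) (dB S' h5) ?_ ?_⟩
        · rw [h3, h6]; exact h8
        · rw [h3, h6]; exact h9
    · intro S h1 c a b h2
      have h3 := memB NQ BQ hBQ S h1 ⟨c, a, b, h2⟩
      rcases u8 with ⟨_, h⟩ | ⟨p, q, h, h', h8, h9⟩
      · rw [h] at h3
        simp at h3
      · rw [h', List.mem_singleton] at h3
        obtain ⟨S', h4, h5, h6⟩ := getB NP p (by rw [← h, hBP])
        refine ⟨S', h4, cmpB (E S) h2 (dB S ⟨c, a, b, h2⟩) (dB S' h5) ?_ ?_⟩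
        · rw [h3, h6]; exact h8.symm
        · rw [h3, h6]
          rcases h9 with h9 | h9
          · exact Or.inl h9.symm
          · right
            rw [h8, h9]
            ring
    · intro S h1 S' h2 c a b c' a' b' h3 h4
      rw [Finset.card_le_one] at cardB
      exact cardB S (Finset.mem_filter.mpr ⟨h1, c, a, b, h3⟩) S'
        (Finset.mem_filter.mpr ⟨h2, c', a', b', h4⟩)

end Pool.Agent.XQ.H81
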