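import Mathlib

/-! Squad XQ, module FCD, part A: functions with bounded second divided differences. -/

set_option autoImplicit false

namespace Pool.Agent.XQ.H81

open Filter Topology

/-- bounded second divided differences with the last node `1` -/
def SD (K : ℝ) (G : ℝ → ℝ) : Prop := ∀ s0 s1 : ℝ, 0 < s0 → s0 < s1 → s1 < 1 →
  |(G 1 - G s1) * (s1 - s0) - (G s1 - G s0) * (1 - s1)| ≤ K * ((1 - s0) * (1 - s1) * (s1 - s0))

lemma SD.nonneg {K : ℝ} {G : ℝ → ℝ} (h : SD K G) : 0 ≤ K := by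
  have h1 := h (1 / 3) (2 / 3) (by norm_num) (by norm_num) (by norm_num)
  have h2 := (abs_nonneg _).trans h1
  norm_num at h2
  linarith only [h2]

lemma SD.mono {K K' : ℝ} {G : ℝ → ℝ} (h : SD K G) (hK : K ≤ K') : SD K' G := by
  intro s0 s1 h0 h1 h2
  refine (h s0 s1 h0 h1 h2).trans (mul_le_mul_of_nonneg_right hK ?_)
  have a1 : 0 ≤ 1 - s0 := by linarith
  have a2 : 0 ≤ 1 - s1 := by linarith
  have a3 : 0 ≤ s1 - s0 := by linarith
  positivity

lemma SD.add {K K' : ℝ} {G G' : ℝ → ℝ} (h : SD K G) (h' : SD K' G') :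
    SD (K + K') fun s => G s + G' s := by
  intro s0 s1 h0 h1 h2
  have e := h s0 s1 h0 h1 h2
  have e' := h' s0 s1 h0 h1 h2
  have : (G 1 + G' 1 - (G s1 + G' s1)) * (s1 - s0) - (G s1 + G' s1 - (G s0 + G' s0)) * (1 - s1) =
    ((G 1 - G s1) * (s1 - s0) - (G s1 - G s0) * (1 - s1)) +
      ((G' 1 - G' s1) * (s1 - s0) - (G' s1 - G' s0) * (1 - s1)) := by ring
  rw [this]
  refine (abs_add_le _ _).trans ?_
  linarith

lemma SD.const_mul {K : ℝ} {G : ℝ → ℝ} (h : SD K G) (c : ℝ) : SD (|c| * K) fun s => c * G s := by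
  intro s0 s1 h0 h1 h2
  have e := h s0 s1 h0 h1 h2
  have : (c * G 1 - c * G s1) * (s1 - s0) - (c * G s1 - c * G s0) * (1 - s1) =
    c * ((G 1 - G s1) * (s1 - s0) - (G s1 - G s0) * (1 - s1)) := by ring
  rw [this, abs_mul, mul_assoc]
  exact mul_le_mul_of_nonneg_left e (abs_nonneg _)

lemma SD.zero : SD 0 fun _ => 0 := by
  intro s0 s1 _ _ _
  simp

lemma SD.sum {ι : Type} (s : Finset ι) (K : ι → ℝ) (G : ι → ℝ → ℝ)
    (h : ∀ i ∈ s, SD (K i) (G i)) : SD (∑ i ∈ s, K i) fun x => ∑ i ∈ s, G i x := by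
  classical
  induction s using Finset.induction_on with
  | empty => simpa using SD.zero
  | insert a s ha ih =>
    have h1 := h a (Finset.mem_insert_self a s)
    have h2 := ih fun i hi => h i (Finset.mem_insert_of_mem hi)
    simpa [Finset.sum_insert ha] using h1.add h2

lemma SD.quad (w0 A1 A2 : ℝ) : SD |A2| fun s => w0 + s * A1 + s ^ 2 * A2 := by
  intro s0 s1 h0 h1 h2
  have a1 : 0 ≤ 1 - s0 := by linarith
  have a2 : 0 ≤ 1 - s1 := by linarith
  have a3 : 0 ≤ s1 - s0 := by linarith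
  have : (w0 + 1 * A1 + 1 ^ 2 * A2 - (w0 + s1 * A1 + s1 ^ 2 * A2)) * (s1 - s0)
      - (w0 + s1 * A1 + s1 ^ 2 * A2 - (w0 + s0 * A1 + s0 ^ 2 * A2)) * (1 - s1)
      = A2 * ((1 - s0) * (1 - s1) * (s1 - s0)) := by ring
  rw [this, abs_mul, abs_of_nonneg (by positivity : 0 ≤ (1 - s0) * (1 - s1) * (s1 - s0))]

/-- the positive part squared -/
lemma sq_dd {a b c : ℝ} (hab : a ≤ b) (hbc : b ≤ c) :
    0 ≤ ((min (-c) 0) ^ 2 - (min (-b) 0) ^ 2) * (b - a)
        - ((min (-b) 0) ^ 2 - (min (-a) 0) ^ 2) * (c - b) ∧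
    ((min (-c) 0) ^ 2 - (min (-b) 0) ^ 2) * (b - a)
        - ((min (-b) 0) ^ 2 - (min (-a) 0) ^ 2) * (c - b) ≤ (c - a) * (c - b) * (b - a) := by
  have h1 : 0 ≤ b - a := by linarith
  have h2 : 0 ≤ c - b := by linarith
  rcases le_total 0 a with ha | ha
  · rw [min_eq_left (by linarith), min_eq_left (by linarith), min_eq_left (by linarith)]
    constructor
    · have : ((-c) ^ 2 - (-b) ^ 2) * (b - a) - ((-b) ^ 2 - (-a) ^ 2) * (c - b) =
        (c - a) * (c - b) * (b - a) := by ring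
      rw [this]
      have : 0 ≤ c - a := by linarith
      positivity
    · apply le_of_eq
      ring
  · rw [min_eq_right (by linarith : (0 : ℝ) ≤ -a)]
    rcases le_total 0 b with hb | hb
    · rw [min_eq_left (by linarith : -c ≤ 0), min_eq_left (by linarith : -b ≤ 0)]
      constructor
      · have : ((-c) ^ 2 - (-b) ^ 2) * (b - a) - ((-b) ^ 2 - 0 ^ 2) * (c - b) =
          (c - b) * ((c + b) * (b - a) - b ^ 2) := by ring
        rw [this]
        refine mul_nonneg h2 ?_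
        nlinarith only [hbc, hb, ha]
      · have : (c - a) * (c - b) * (b - a) - (((-c) ^ 2 - (-b) ^ 2) * (b - a)
          - ((-b) ^ 2 - 0 ^ 2) * (c - b)) = (c - b) * (a ^ 2) := by ring
        have h3 : 0 ≤ (c - b) * a ^ 2 := mul_nonneg h2 (sq_nonneg a)
        linarith
    · rw [min_eq_right (by linarith : (0 : ℝ) ≤ -b)]
      rcases le_total 0 c with hc | hc
      · rw [min_eq_left (by linarith : -c ≤ 0)]
        constructor
        · have : ((-c) ^ 2 - 0 ^ 2) * (b - a) - (0 ^ 2 - 0 ^ 2) * (c - b) = c ^ 2 * (b - a) := by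
            ring
          rw [this]
          positivity
        · have : ((-c) ^ 2 - 0 ^ 2) * (b - a) - (0 ^ 2 - 0 ^ 2) * (c - b) = c ^ 2 * (b - a) := by
            ring
          rw [this]
          refine mul_le_mul_of_nonneg_right ?_ h1
          nlinarith
      · rw [min_eq_right (by linarith : (0 : ℝ) ≤ -c)]
        constructor
        · simp
        · have h3 : 0 ≤ c - a := by linarith
          have : 0 ≤ (c - a) * (c - b) * (b - a) := by positivity
          simpa using this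

lemma SD.pos (D0 D : ℝ) : SD (D ^ 2) fun s => (min (D0 - s * D) 0) ^ 2 := by
  intro s0 s1 h0 h1 h2
  have a1 : 0 < 1 - s0 := by linarith
  have a2 : 0 < 1 - s1 := by linarith
  have a3 : 0 < s1 - s0 := by linarith
  have hR : 0 ≤ (1 - s0) * (1 - s1) * (s1 - s0) := by positivity
  set X := ((min (D0 - 1 * D) 0) ^ 2 - (min (D0 - s1 * D) 0) ^ 2) * (s1 - s0)
      - ((min (D0 - s1 * D) 0) ^ 2 - (min (D0 - s0 * D) 0) ^ 2) * (1 - s1) with hX
  rcases lt_trichotomy D 0 with hD | hD | hD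
  · -- decreasing: reflect
    have h3 := sq_dd (a := 1 * D - D0) (b := s1 * D - D0) (c := s0 * D - D0) (by nlinarith only [h2, hD])
      (by nlinarith only [h1, hD])
    simp only [neg_sub] at h3
    have e1 : s1 * D - D0 - (1 * D - D0) = (1 - s1) * (-D) := by ring
    have e2 : s0 * D - D0 - (s1 * D - D0) = (s1 - s0) * (-D) := by ring
    have e3 : s0 * D - D0 - (1 * D - D0) = (1 - s0) * (-D) := by ring
    rw [e1, e2, e3] at h3
    have h4 : 0 ≤ X * (-D) := by
      rw [hX]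
      have := h3.1
      linarith only [h3]
    have h5 : X * (-D) ≤ (D ^ 2 * ((1 - s0) * (1 - s1) * (s1 - s0))) * (-D) := by
      rw [hX]
      have := h3.2
      linarith only [h3]
    have hD' : 0 < -D := by linarith
    have h6 : 0 ≤ X := nonneg_of_mul_nonneg_left h4 hD'
    have h7 := le_of_mul_le_mul_right h5 hD'
    rw [abs_of_nonneg h6]
    exact h7
  · rw [hX, hD]
    simp
  · have h3 := sq_dd (a := s0 * D - D0) (b := s1 * D - D0) (c := 1 * D - D0) (by nlinarith)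
      (by nlinarith)
    simp only [neg_sub] at h3
    have e1 : s1 * D - D0 - (s0 * D - D0) = (s1 - s0) * D := by ring
    have e2 : 1 * D - D0 - (s1 * D - D0) = (1 - s1) * D := by ring
    have e3 : 1 * D - D0 - (s0 * D - D0) = (1 - s0) * D := by ring
    rw [e1, e2, e3] at h3
    have h4 : 0 ≤ X * D := by
      rw [hX]
      have := h3.1
      linarith only [h3]
    have h5 : X * D ≤ (D ^ 2 * ((1 - s0) * (1 - s1) * (s1 - s0))) * D := by
      rw [hX]
      have := h3.2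
      linarith only [h3]
    have h6 : 0 ≤ X := nonneg_of_mul_nonneg_left h4 hD
    have h7 := le_of_mul_le_mul_right h5 hD
    rw [abs_of_nonneg h6]
    exact h7

/-- the value at `1` of a function which is at least `w μ (s* - s)` before its zero `s*` -/
lemma SD.last {K : ℝ} {G : ℝ → ℝ} (h : SD K G) {w μ l ss : ℝ} (hss : 0 < ss) (hss1 : ss < 1)
    (lo : ∀ s, 0 < s → s < ss → w * μ * (ss - s) ≤ G s)
    (hi : ∀ s, 0 < s → s < ss → G s ≤ w * l * (ss - s)) (hi0 : ∀ s, 0 < s → s < ss → 0 ≤ G s) :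
    G 1 ≤ (1 - ss) * (-(w * μ) + K * (1 - ss)) := by
  have key : ∀ᶠ τ : ℝ in 𝓝[>] 0, G 1 * (1 - τ) ≤ w * l * τ ^ 2 * (1 - τ)
      + (w * l * τ - w * μ) * (1 - ss + τ ^ 2)
      + K * (1 - ss + τ) * (1 - ss + τ ^ 2) * (1 - τ) := by
    have e1 : ∀ᶠ τ : ℝ in 𝓝[>] 0, τ ∈ Set.Ioo (0 : ℝ) (min ss (1 / 2)) :=
      Ioo_mem_nhdsGT (lt_min hss (by norm_num))
    filter_upwards [e1] with τ hτ
    have t0 : 0 < τ := hτ.1
    have t1 : τ < ss := hτ.2.trans_le (min_le_left _ _)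
    have t2 : τ < 1 / 2 := hτ.2.trans_le (min_le_right _ _)
    have t3 : τ ^ 2 < τ := by nlinarith only [hss1, t0, t1]
    have s1 : 0 < ss - τ := by linarith
    have s2 : ss - τ < ss - τ ^ 2 := by linarith
    have s3 : ss - τ ^ 2 < ss := by nlinarith
    have h1 := (le_abs_self _).trans (h (ss - τ) (ss - τ ^ 2) s1 s2 (by linarith))
    have h2 := lo (ss - τ) s1 (by linarith)
    have h3 := hi (ss - τ ^ 2) (by linarith) s3
    have h4 := hi0 (ss - τ ^ 2) (by linarith) s3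
    rw [show ss - (ss - τ) = τ by ring] at h2
    rw [show ss - (ss - τ ^ 2) = τ ^ 2 by ring] at h3
    rw [show ss - τ ^ 2 - (ss - τ) = τ * (1 - τ) by ring,
      show 1 - (ss - τ) = 1 - ss + τ by ring, show 1 - (ss - τ ^ 2) = 1 - ss + τ ^ 2 by ring] at h1
    have p1 : 0 ≤ 1 - ss + τ ^ 2 := by linarith only [hss1, s3]
    have p2 : 0 ≤ τ * (1 - τ) := by linarith only [t3]
    have h5 : (G (ss - τ ^ 2) - G (ss - τ)) * (1 - ss + τ ^ 2) ≤
        (w * l * τ ^ 2 - w * μ * τ) * (1 - ss + τ ^ 2) :=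
      mul_le_mul_of_nonneg_right (by linarith) p1
    have h6 : G (ss - τ ^ 2) * (τ * (1 - τ)) ≤ w * l * τ ^ 2 * (τ * (1 - τ)) :=
      mul_le_mul_of_nonneg_right h3 p2
    have h7 : (G 1 * (1 - τ)) * τ ≤ (w * l * τ ^ 2 * (1 - τ)
      + (w * l * τ - w * μ) * (1 - ss + τ ^ 2)
      + K * (1 - ss + τ) * (1 - ss + τ ^ 2) * (1 - τ)) * τ := by
      linarith only [h1, h5, h6]
    exact le_of_mul_le_mul_right h7 t0
  have l1 : Tendsto (fun τ : ℝ => G 1 * (1 - τ)) (𝓝[>] 0) (𝓝 (G 1 * (1 - 0))) := by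
    have : Continuous fun τ : ℝ => G 1 * (1 - τ) := by fun_prop
    exact (this.tendsto 0).mono_left nhdsWithin_le_nhds
  have l2 : Tendsto (fun τ : ℝ => w * l * τ ^ 2 * (1 - τ)
      + (w * l * τ - w * μ) * (1 - ss + τ ^ 2)
      + K * (1 - ss + τ) * (1 - ss + τ ^ 2) * (1 - τ)) (𝓝[>] 0)
      (𝓝 (w * l * 0 ^ 2 * (1 - 0)
      + (w * l * 0 - w * μ) * (1 - ss + 0 ^ 2)
      + K * (1 - ss + 0) * (1 - ss + 0 ^ 2) * (1 - 0))) := by
    have : Continuous fun τ : ℝ => w * l * τ ^ 2 * (1 - τ)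
      + (w * l * τ - w * μ) * (1 - ss + τ ^ 2)
      + K * (1 - ss + τ) * (1 - ss + τ ^ 2) * (1 - τ) := by fun_prop
    exact (this.tendsto 0).mono_left nhdsWithin_le_nhds
  have := le_of_tendsto_of_tendsto l1 l2 key
  calc G 1 = G 1 * (1 - 0) := by ring
    _ ≤ _ := this
    _ = _ := by ring

end Pool.Agent.XQ.H81
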