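import Pool.Agent.Helper81_XQ.FcdA
import Pool.Agent.Helper16_XQ.StmtD

/-! Squad XQ, module FCD, part B: the sum of the contributions along the ray. -/

set_option autoImplicit false

namespace Pool.Agent.XQ.H81

open MeasureTheory Complex Filter Topology ProbabilityTheory Pool.Agent.H16Iso Pool.Agent.H62T
open Pool.Agent.H16F (Sublin ind)
open Pool.Agent.AEU Pool.Agent.AEU.H35 Pool.Agent.XQ

/-- scaled bodies -/
def sm (s : ℝ) (h : ℂ → ℝ) : ℂ → ℝ := fun w => s * h w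

lemma sm_one (h : ℂ → ℝ) : sm 1 h = h := by
  funext w; unfold sm; ring

/-- events given by a copy which touches the three lines -/
def EvR (S : Finset HP) (R : (ℂ → ℝ) → Prop) (h : ℂ → ℝ) : Prop :=
  ∃ (σ : ℝ) (x : ℂ), 0 < σ ∧ σ ≤ 1 ∧ (∀ s ∈ S, σ * h s.1 + ip s.1 x = s.2) ∧
    R (fun w => σ * h w + ip w x)

lemma ev_evR (P S : Finset HP) (h : ℂ → ℝ) :
    Ev P S h ↔ EvR S (fun k => Fits P k ∧ touch P k = S) h := by
  constructor
  · rintro ⟨σ, x, h1, h2, h3, h4⟩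
    refine ⟨σ, x, h1, h2, ?_, h3, h4⟩
    intro s hs
    rw [← h4, mem_touch] at hs
    exact hs.2
  · rintro ⟨σ, x, h1, h2, _, h3, h4⟩
    exact ⟨σ, x, h1, h2, h3, h4⟩

lemma DD_sm (a b c : ℂ) (s : ℝ) (h : ℂ → ℝ) : DD a b c (sm s h) = s * DD a b c h := by
  unfold DD sm; ring

lemma zs_ne {S : Finset HP} (hS : S.card = 3) {h : ℂ → ℝ} (hz : Zs S h ≠ 0) :
    ∃ a b c : HP, S = {a, b, c} ∧ 0 < D0 a b c ∧ D0 a b c < DD a.1 b.1 c.1 h := by
  classical
  obtain ⟨a, b, c, rfl, hab, hac, hbc, hD⟩ := exists_order hS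
  rcases hD.eq_or_lt with hD | hD
  · exact absurd (Zs_zero hD.symm h) hz
  · rw [Zs_eq hab hac hbc hD] at hz
    refine ⟨a, b, c, rfl, hD, ?_⟩
    by_contra hcon
    exact hz (ZZ_eq_zero (not_lt.1 hcon))

lemma ind_const {S : Finset HP} (hS : S.card = 3) (R : (ℂ → ℝ) → Prop) (h : ℂ → ℝ) {s : ℝ}
    (hs : 0 < s) (hs1 : s ≤ 1) :
    ind (EvR S R (sm s h)) * Zs S (sm s h) = ind (EvR S R h) * Zs S (sm s h) := by
  classical
  by_cases hz : Zs S (sm s h) = 0
  · rw [hz, mul_zero, mul_zero]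
  · obtain ⟨a, b, c, hSe, hD, hDD⟩ := zs_ne hS hz
    rw [DD_sm] at hDD
    have : EvR S R (sm s h) ↔ EvR S R h := by
      constructor
      · rintro ⟨σ, x, h1, h2, h3, h4⟩
        have e : ∀ w, σ * sm s h w = (σ * s) * h w := by intro w; unfold sm; ring
        refine ⟨σ * s, x, mul_pos h1 hs, ?_, ?_, ?_⟩
        · calc σ * s ≤ 1 * 1 := mul_le_mul h2 hs1 hs.le zero_le_one
            _ = 1 := by ring
        · intro t ht
          rw [← e]
          exact h3 t ht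
        · have : (fun w => (σ * s) * h w + ip w x) = fun w => σ * sm s h w + ip w x := by
            funext w; rw [e]
          rw [this]
          exact h4
      · rintro ⟨σ, x, h1, h2, h3, h4⟩
        have ha := h3 a (by rw [hSe]; simp)
        have hb := h3 b (by rw [hSe]; simp)
        have hc := h3 c (by rw [hSe]; simp)
        have h5 : σ * DD a.1 b.1 c.1 h = D0 a b c := by
          have := dt_ip_cyc a.1 b.1 c.1 x
          have ea : a.2 - σ * h a.1 = ip a.1 x := by linarith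
          have eb : b.2 - σ * h b.1 = ip b.1 x := by linarith
          have ec : c.2 - σ * h c.1 = ip c.1 x := by linarith
          rw [← ea, ← eb, ← ec] at this
          unfold DD D0
          linarith
        have h6 : 0 < DD a.1 b.1 c.1 h := by
          by_contra hcon
          push Not at hcon
          have := mul_nonpos_of_nonneg_of_nonpos hs.le hcon
          linarith
        have h7 : σ < s := by
          rw [← h5] at hDD
          exact lt_of_mul_lt_mul_right hDD h6.le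
        have e : ∀ w, σ / s * sm s h w = σ * h w := by
          intro w; unfold sm; field_simp
        refine ⟨σ / s, x, div_pos h1 hs, (div_le_one hs).mpr h7.le, ?_, ?_⟩
        · intro t ht
          rw [e]
          exact h3 t ht
        · have : (fun w => σ / s * sm s h w + ip w x) = fun w => σ * h w + ip w x := by
            funext w; rw [e]
          rw [this]
          exact h4
    unfold ind
    simp only [this]

lemma SD.congr {K : ℝ} {G G' : ℝ → ℝ} (h : SD K G') (e : ∀ s, 0 < s → s ≤ 1 → G s = G' s) :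
    SD K G := by
  intro s0 s1 h0 h1 h2
  rw [e 1 one_pos le_rfl, e s1 (by linarith) h2.le, e s0 h0 (by linarith)]
  exact h s0 s1 h0 h1 h2

lemma ind_01 (p : Prop) : ind p = 0 ∨ ind p = 1 := by
  unfold ind
  split_ifs
  · exact Or.inr rfl
  · exact Or.inl rfl

lemma SD.ind_mul {K : ℝ} {S : Finset HP} (hS : S.card = 3) (R : (ℂ → ℝ) → Prop) {h : ℂ → ℝ}
    (hK : SD K fun s => Zs S (sm s h)) :
    SD K fun s => ind (EvR S R (sm s h)) * Zs S (sm s h) := by
  have h1 : SD K fun s => ind (EvR S R h) * Zs S (sm s h) := by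
    rcases ind_01 (EvR S R h) with e | e
    · rw [e]
      simpa using SD.zero.mono hK.nonneg
    · rw [e]
      simpa using hK
  exact h1.congr fun s hs hs1 => ind_const hS R h hs hs1

/-- constants -/
noncomputable def kz (S : Finset HP) : ℝ :=
  (1 / 3) * ∑ a ∈ S, ∑ b ∈ S, ∑ c ∈ S, |(-1) / (2 * pr a.1 b.1 c.1)|

lemma kz_nonneg (S : Finset HP) : 0 ≤ kz S := by
  unfold kz
  have : 0 ≤ ∑ a ∈ S, ∑ b ∈ S, ∑ c ∈ S, |(-1) / (2 * pr a.1 b.1 c.1)| :=
    Finset.sum_nonneg fun _ _ => Finset.sum_nonneg fun _ _ => Finset.sum_nonneg fun _ _ =>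
      abs_nonneg _
  linarith

lemma sd_Zs {S : Finset HP} {h : ℂ → ℝ} {B : ℝ}
    (hB : ∀ a ∈ S, ∀ b ∈ S, ∀ c ∈ S, |DD a.1 b.1 c.1 h| ≤ B) :
    SD (kz S * B ^ 2) fun s => Zs S (sm s h) := by
  classical
  have h1 : ∀ a ∈ S, ∀ b ∈ S, ∀ c ∈ S, SD (|(-1) / (2 * pr a.1 b.1 c.1)| * B ^ 2) fun s =>
      if 0 < D0 a b c then ZZ a.1 b.1 c.1 (D0 a b c) (sm s h) else 0 := by
    intro a ha b hb c hc
    have hb0 := hB a ha b hb c hc
    have hb1 : (DD a.1 b.1 c.1 h) ^ 2 ≤ B ^ 2 := by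
      rw [← sq_abs]
      exact pow_le_pow_left₀ (abs_nonneg _) hb0 2
    split_ifs with hD
    · refine ((SD.pos (D0 a b c) (DD a.1 b.1 c.1 h)).const_mul
        ((-1) / (2 * pr a.1 b.1 c.1))).mono ?_ |>.congr fun s _ _ => ?_
      · exact mul_le_mul_of_nonneg_left hb1 (abs_nonneg _)
      · unfold ZZ
        rw [DD_sm]
        ring
    · exact SD.zero.mono (by positivity)
  have h2 := (SD.sum S _ _ fun a ha => SD.sum S _ _ fun b hb => SD.sum S _ _ fun c hc =>
    h1 a ha b hb c hc).const_mul (1 / 3 : ℝ)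
  refine (h2.mono (le_of_eq ?_)).congr fun s _ _ => rfl
  rw [abs_of_pos (by norm_num : (0 : ℝ) < 1 / 3)]
  unfold kz
  rw [mul_assoc, Finset.sum_mul]
  congr 1
  refine Finset.sum_congr rfl fun a _ => ?_
  rw [Finset.sum_mul]
  refine Finset.sum_congr rfl fun b _ => ?_
  rw [Finset.sum_mul]

lemma noTie_sm {P : Finset HP} {h : ℂ → ℝ} (hn : NoTie P h) {s : ℝ} (hs : 0 < s) :
    NoTie P (sm s h) := by
  intro σ x hσ T hT hc
  obtain ⟨t, ht, h1⟩ := hn (σ * s) x (mul_pos hσ hs) T hT hc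
  refine ⟨t, ht, ?_⟩
  unfold sm
  rwa [← mul_assoc]

lemma noTie_sub {P P' : Finset HP} {h : ℂ → ℝ} (hn : NoTie P h) (hP : P' ⊆ P) : NoTie P' h :=
  fun σ x hσ T hT hc => hn σ x hσ T (hT.trans hP) hc

/-- the constant for `DX` -/
noncomputable def kd (T : Finset (Finset HP)) (c : Finset HP → HP → ℝ)
    (A : Finset (Finset HP)) : ℝ :=
  ∑ S ∈ A, kz S + ∑ F ∈ T, (∑ t ∈ Mp F (c F), kz (F.erase t) + ∑ t ∈ Mm F (c F), kz (F.erase t))

lemma kd_nonneg (T : Finset (Finset HP)) (c : Finset HP → HP → ℝ) (A : Finset (Finset HP)) :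
    0 ≤ kd T c A := by
  unfold kd
  refine add_nonneg (Finset.sum_nonneg fun _ _ => kz_nonneg _) (Finset.sum_nonneg fun _ _ =>
    add_nonneg (Finset.sum_nonneg fun _ _ => kz_nonneg _) (Finset.sum_nonneg fun _ _ =>
    kz_nonneg _))

lemma sd_DX (hclx : ClxStatement) {X : Finset HP} {T : Finset (Finset HP)}
    {c : Finset HP → HP → ℝ} {A : Finset (Finset HP)} {K : Finset HP → ℂ → ℝ} {L : ℝ}
    (hL : 0 < L) (hX : ∀ s ∈ X, ‖s.1‖ = 1) (hA : A ⊆ X.powersetCard 3)
    (hT : ∀ F ∈ T, F ⊆ X ∧ TornC X F (K F) L (c F)) {h : ℂ → ℝ} {B : ℝ} (hn : NoTie X h)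
    (hB : ∀ a ∈ X, ∀ b ∈ X, ∀ c ∈ X, |DD a.1 b.1 c.1 h| ≤ B) :
    SD (kd T c A * B ^ 2) fun s => DX X T c A (sm s h) := by
  classical
  have hBs : ∀ S ⊆ X, ∀ a ∈ S, ∀ b ∈ S, ∀ c ∈ S, |DD a.1 b.1 c.1 h| ≤ B :=
    fun S hS a ha b hb c hc => hB a (hS ha) b (hS hb) c (hS hc)
  have h1 : SD (∑ S ∈ A, kz S * B ^ 2) fun s =>
      ∑ S ∈ A, ind (Ev (rlx X T c S) S (sm s h)) * Zs S (sm s h) := by
    refine SD.sum A _ _ fun S hS => ?_
    have hS' := Finset.mem_powersetCard.mp (hA hS)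
    have h2 := SD.ind_mul hS'.2 (fun k => Fits (rlx X T c S) k ∧ touch (rlx X T c S) k = S)
      (sd_Zs (hBs S hS'.1))
    refine h2.congr fun s _ _ => ?_
    rw [show Ev (rlx X T c S) S (sm s h) = EvR S _ (sm s h) from propext (ev_evR _ _ _)]
  have h2 : SD (∑ F ∈ T, (∑ t ∈ Mp F (c F), kz (F.erase t) * B ^ 2
      + ∑ t ∈ Mm F (c F), kz (F.erase t) * B ^ 2)) fun s =>
      ∑ F ∈ T, (-1) ^ (Mm F (c F)).card * Ar (Mp F (c F)) (Mm F (c F)) (sm s h) := by
    refine SD.sum T _ _ fun F hF => ?_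
    obtain ⟨hFX, ht⟩ := hT F hF
    have hmem : ∀ t ∈ F, (F.erase t).card = 3 := by
      intro t ht'
      rw [Finset.card_erase_of_mem ht', ht.card]
    have hp : ∀ t ∈ Mp F (c F), t ∈ F := fun t h => (Finset.mem_filter.mp h).1
    have hm : ∀ t ∈ Mm F (c F), t ∈ F := fun t h => (Finset.mem_filter.mp h).1
    have s1 : SD (∑ t ∈ Mp F (c F), kz (F.erase t) * B ^ 2) fun s =>
        ∑ t ∈ Mp F (c F), ind (EvO (F.erase t) t (sm s h)) * Zs (F.erase t) (sm s h) :=
      SD.sum _ _ _ fun t ht' => SD.ind_mul (hmem t (hp t ht')) (fun k => t.2 < k t.1)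
        (sd_Zs (hBs _ ((Finset.erase_subset _ _).trans hFX)))
    have s2 : SD (∑ t ∈ Mm F (c F), kz (F.erase t) * B ^ 2) fun s =>
        ∑ t ∈ Mm F (c F), ind (EvN (F.erase t) t (sm s h)) * Zs (F.erase t) (sm s h) :=
      SD.sum _ _ _ fun t ht' => SD.ind_mul (hmem t (hm t ht')) (fun k => k t.1 < t.2)
        (sd_Zs (hBs _ ((Finset.erase_subset _ _).trans hFX)))
    have s3 := (s1.const_mul (-1)).add s2
    rw [abs_neg, abs_one, one_mul] at s3
    refine s3.congr fun s hs hs1 => ?_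
    have := hclx F (c F) ht.card (fun s hs => hX s (hFX hs)) ht.np ht.ne ht.dep
      (by rw [ht.val]; exact hL) (sm s h) (noTie_sm (noTie_sub hn hFX) hs)
    rw [this]
    ring
  have h3 := h1.add h2
  refine (h3.mono (le_of_eq ?_)).congr fun s _ _ => rfl
  unfold kd
  simp only [Finset.sum_mul, add_mul]

end Pool.Agent.XQ.H81
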