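import Pool.Agent.Helper81_XQ.FcdB
import Pool.Agent.Helper69_AEU.Tools
import Pool.Agent.Helper69_AEU.Lam

/-! Squad XQ, module FCD, part C: geometry. -/

set_option autoImplicit false

namespace Pool.Agent.XQ.H81

open MeasureTheory Complex Filter Topology ProbabilityTheory Pool.Agent.H16Iso Pool.Agent.H62T
open Pool.Agent.H16F (Sublin ind)
open Pool.Agent.AEU Pool.Agent.AEU.H35 Pool.Agent.XQ

lemma ipc_add (z a b : ℂ) : ip z (a + b) = ip z a + ip z b := by
  unfold ip; simp; ring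

lemma ipc_sub (z a b : ℂ) : ip z (a - b) = ip z a - ip z b := by
  unfold ip; simp; ring

lemma ipc_neg_left (z x : ℂ) : ip (-z) x = -ip z x := by
  unfold ip; simp; ring

lemma ipc_mul_right (z x : ℂ) (r : ℝ) : ip z ((r : ℂ) * x) = r * ip z x := by
  unfold ip; simp; ring

lemma ipc_self {z : ℂ} (hz : ‖z‖ = 1) : ip z z = 1 := by
  have h2 := Complex.sq_norm z
  rw [hz, Complex.normSq_apply] at h2
  unfold ip
  linarith

lemma ipc_cont (z : ℂ) : Continuous fun x => ip z x := by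
  unfold ip
  fun_prop

lemma ipc_I_self (z : ℂ) : ip (z * I) z = 0 := by
  unfold ip; simp; ring

lemma ipc_dec {a : ℂ} (ha : ‖a‖ = 1) (r z : ℂ) :
    ip r z = ip r a * ip a z + ip r (a * I) * ip (a * I) z := by
  have h2 := Complex.sq_norm a
  rw [ha, Complex.normSq_apply] at h2
  unfold ip
  simp only [mul_re, mul_im, I_re, I_im]
  linear_combination (r.re * z.re + r.im * z.im) * (h2)

lemma vec_dec {a : ℂ} (ha : ‖a‖ = 1) (r : ℂ) :
    r = (ip r a : ℂ) * a + (ip r (a * I) : ℂ) * (a * I) := by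
  have h2 := Complex.sq_norm a
  rw [ha, Complex.normSq_apply] at h2
  apply Complex.ext
  · unfold ip
    simp only [mul_re, mul_im, I_re, I_im, add_re, ofReal_re, ofReal_im]
    linear_combination r.re * h2
  · unfold ip
    simp only [mul_re, mul_im, I_re, I_im, add_im, ofReal_re, ofReal_im]
    linear_combination r.im * h2

/-- area of a rectangle -/
lemma vol_rect {u : ℂ} (hu : ‖u‖ = 1) (a b c d : ℝ) :
    volume {x : ℂ | ip u x ∈ Set.Icc a b ∧ ip (u * I) x ∈ Set.Icc c d}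
      = ENNReal.ofReal (b - a) * ENNReal.ofReal (d - c) := by
  let e : ℂ ≃ₗᵢ[ℝ] ℂ := rotation ⟨u, by simpa [Submonoid.unitSphere] using hu⟩
  have he : ∀ x, e x = u * x := fun x => rfl
  have hm := e.measurePreserving
  have h2 := Complex.sq_norm u
  rw [hu, Complex.normSq_apply] at h2
  have h1 : e ⁻¹' {x : ℂ | ip u x ∈ Set.Icc a b ∧ ip (u * I) x ∈ Set.Icc c d}
      = Complex.measurableEquivRealProd ⁻¹' (Set.Icc a b ×ˢ Set.Icc c d) := by
    ext z
    simp only [Set.mem_preimage, Set.mem_setOf_eq, he, Set.mem_prod]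
    have e1 : ip u (u * z) = z.re := by
      unfold ip
      simp only [mul_re, mul_im]
      linear_combination (-z.re) * h2
    have e2 : ip (u * I) (u * z) = z.im := by
      unfold ip
      simp only [mul_re, mul_im, I_re, I_im]
      linear_combination (-z.im) * h2
    rw [e1, e2]
    rfl
  have hcl : IsClosed {x : ℂ | ip u x ∈ Set.Icc a b ∧ ip (u * I) x ∈ Set.Icc c d} :=
    (isClosed_Icc.preimage (ipc_cont u)).inter (isClosed_Icc.preimage (ipc_cont (u * I)))
  rw [← hm.measure_preimage hcl.measurableSet.nullMeasurableSet, h1,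
    Complex.volume_preserving_equiv_real_prod.measure_preimage
      ((measurableSet_Icc.prod measurableSet_Icc).nullMeasurableSet),
    Measure.volume_eq_prod, Measure.prod_prod, Real.volume_Icc, Real.volume_Icc]

lemma sublin_copy {h : ℂ → ℝ} (hs : Sublin h) {σ : ℝ} (hσ : 0 ≤ σ) (x : ℂ) :
    Sublin fun w => σ * h w + ip w x := by
  constructor
  · intro a b
    have h1 := hs.1 a b
    have h2 : ip (a + b) x = ip a x + ip b x := by
      simp only [ip, add_re, add_im]; ring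
    simp only
    rw [h2]
    nlinarith
  · intro c a hc
    have h1 := hs.2 c a hc
    have h2 : ip ((c : ℂ) * a) x = c * ip a x := by
      simp only [ip, re_ofReal_mul, im_ofReal_mul]; ring
    simp only
    rw [h1, h2]
    ring

lemma sublin_sm {h : ℂ → ℝ} (hs : Sublin h) {s : ℝ} (hs0 : 0 ≤ s) : Sublin (sm s h) := by
  have := sublin_copy hs hs0 0
  have e : (fun w => s * h w + ip w 0) = sm s h := by
    funext w
    unfold sm ip
    simp
  rwa [e] at this

lemma lam_copy {h : ℂ → ℝ} (hs : Sublin h) (σ : ℝ) (x : ℂ) :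
    lam (fun w => σ * h w + ip w x) = σ * lam h := by
  have h1 := AEU.H69.lamS.1 h h hs hs σ 0 x
  have e : (fun w => σ * h w + 0 * h w + ip w x) = fun w => σ * h w + ip w x := by
    funext w; ring
  rw [e] at h1
  rw [h1]
  ring

lemma lam_sm {h : ℂ → ℝ} (hs : Sublin h) (s : ℝ) : lam (sm s h) = s * lam h := by
  have := lam_copy hs s 0
  have e : (fun w => s * h w + ip w 0) = sm s h := by
    funext w
    unfold sm ip
    simp
  rwa [e] at this

lemma width_nonneg {h : ℂ → ℝ} (hs : Sublin h) (a : ℂ) : 0 ≤ h a + h (-a) := by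
  have h0 := (AEU.H69.sup h hs).1
  have := hs.1 a (-a)
  rw [add_neg_cancel, h0] at this
  exact this

/-- the perimeter of an inscribed rhombus -/
lemma rhombus0 (arc : ArcStatement) {h : ℂ → ℝ} (hs : Sublin h) {a : ℂ} (ha : ‖a‖ = 1) {φ : ℝ}
    (h0 : 0 ≤ φ) (h1 : φ ≤ Real.pi / 2) :
    2 * Real.sin φ * (h a + h (-a)) + 2 * Real.cos φ * (h (a * I) + h (-(a * I))) ≤ lam h := by
  obtain ⟨α, hα⟩ := (Complex.norm_eq_one_iff _).1 ha
  have hcont : Continuous fun t : ℝ => h (exp (t * I)) := by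
    have hc := (AEU.H69.sup h hs).2.1
    exact hc.comp (by fun_prop)
  have hper : Function.Periodic (fun t : ℝ => h (exp (t * I))) (2 * Real.pi) := by
    intro t
    simp only
    congr 1
    push_cast
    rw [add_mul]
    exact Complex.exp_periodic _
  have hi : ∀ a b : ℝ, IntervalIntegrable (fun t : ℝ => h (exp (t * I))) volume a b :=
    fun a b => hcont.intervalIntegrable a b
  have hpi := Real.pi_pos
  set b0 : ℝ := α - φ with hb0
  set b1 : ℝ := α + φ with hb1
  set b2 : ℝ := α + Real.pi - φ with hb2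
  set b3 : ℝ := α + Real.pi + φ with hb3
  have hp := hper.intervalIntegral_add_eq 0 b0
  rw [zero_add] at hp
  have hlam : lam h = ∫ t in b0..(b0 + 2 * Real.pi), h (exp (t * I)) := hp
  have k0 := (arc h hs b0 b1 (by linarith) (by linarith)).1
  have k1 := (arc h hs b1 b2 (by linarith) (by linarith)).1
  have k2 := (arc h hs b2 b3 (by linarith) (by linarith)).1
  have k3 := (arc h hs b3 (b0 + 2 * Real.pi) (by linarith) (by linarith)).1
  rw [hlam, ← intervalIntegral.integral_add_adjacent_intervals (hi b0 b1) (hi b1 _),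
    ← intervalIntegral.integral_add_adjacent_intervals (hi b1 b2) (hi b2 _),
    ← intervalIntegral.integral_add_adjacent_intervals (hi b2 b3) (hi b3 _)]
  have es : exp (φ * I) = (Real.cos φ : ℂ) + (Real.sin φ : ℂ) * I := by
    rw [Complex.exp_mul_I, ← Complex.ofReal_cos, ← Complex.ofReal_sin]
  have es' : exp (-(φ * I)) = (Real.cos φ : ℂ) - (Real.sin φ : ℂ) * I := by
    rw [← neg_mul, Complex.exp_mul_I, Complex.cos_neg, Complex.sin_neg, ← Complex.ofReal_cos,
      ← Complex.ofReal_sin]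
    ring
  have x0 : exp (b0 * I) = a * ((Real.cos φ : ℂ) - (Real.sin φ : ℂ) * I) := by
    rw [hb0, ofReal_sub, sub_mul, sub_eq_add_neg, Complex.exp_add, es', hα]
  have x1 : exp (b1 * I) = a * ((Real.cos φ : ℂ) + (Real.sin φ : ℂ) * I) := by
    rw [hb1, ofReal_add, add_mul, Complex.exp_add, es, hα]
  have x2 : exp (b2 * I) = -(a * ((Real.cos φ : ℂ) - (Real.sin φ : ℂ) * I)) := by
    rw [hb2, ofReal_sub, ofReal_add, sub_mul, add_mul, sub_eq_add_neg, Complex.exp_add,
      Complex.exp_add, es', hα, Complex.exp_pi_mul_I]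
    ring
  have x3 : exp (b3 * I) = -(a * ((Real.cos φ : ℂ) + (Real.sin φ : ℂ) * I)) := by
    rw [hb3, ofReal_add, ofReal_add, add_mul, add_mul, Complex.exp_add,
      Complex.exp_add, es, hα, Complex.exp_pi_mul_I]
    ring
  have x4 : exp ((b0 + 2 * Real.pi : ℝ) * I) = a * ((Real.cos φ : ℂ) - (Real.sin φ : ℂ) * I) := by
    rw [← x0, ofReal_add, add_mul, Complex.exp_add]
    push_cast
    rw [Complex.exp_two_pi_mul_I, mul_one]
  have e0 : I * exp (b0 * I) - I * exp (b1 * I) = ((2 * Real.sin φ : ℝ) : ℂ) * a := by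
    rw [x0, x1]
    push_cast
    linear_combination (-2 * a * Complex.sin φ) * I_mul_I
  have e1 : I * exp (b1 * I) - I * exp (b2 * I) = ((2 * Real.cos φ : ℝ) : ℂ) * (a * I) := by
    rw [x1, x2]
    push_cast
    ring
  have e2 : I * exp (b2 * I) - I * exp (b3 * I) = ((2 * Real.sin φ : ℝ) : ℂ) * (-a) := by
    rw [x2, x3]
    push_cast
    linear_combination (2 * a * Complex.sin φ) * I_mul_I
  have e3 : I * exp (b3 * I) - I * exp ((b0 + 2 * Real.pi : ℝ) * I) =
      ((2 * Real.cos φ : ℝ) : ℂ) * (-(a * I)) := by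
    rw [x3, x4]
    push_cast
    ring
  have hsin : 0 ≤ 2 * Real.sin φ := by
    have := Real.sin_nonneg_of_nonneg_of_le_pi h0 (by linarith)
    linarith
  have hcos : 0 ≤ 2 * Real.cos φ := by
    have := Real.cos_nonneg_of_mem_Icc (x := φ) ⟨by linarith, h1⟩
    linarith
  rw [e0, hs.2 _ _ hsin] at k0
  rw [e1, hs.2 _ _ hcos] at k1
  rw [e2, hs.2 _ _ hsin] at k2
  rw [e3, hs.2 _ _ hcos] at k3
  linarith

lemma rhombus (arc : ArcStatement) {h : ℂ → ℝ} (hs : Sublin h) {a : ℂ} (ha : ‖a‖ = 1) :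
    (h a + h (-a)) ^ 2 + (h (a * I) + h (-(a * I))) ^ 2 ≤ (lam h / 2) ^ 2 := by
  set W := h a + h (-a) with hW
  set E := h (a * I) + h (-(a * I)) with hE
  have hW0 : 0 ≤ W := width_nonneg hs a
  have hE0 : 0 ≤ E := width_nonneg hs (a * I)
  have hlam : 0 ≤ lam h := AEU.H69.lamS.2.2.1 h hs
  set R := Real.sqrt (W ^ 2 + E ^ 2) with hR
  have hR2 : R ^ 2 = W ^ 2 + E ^ 2 := Real.sq_sqrt (by positivity)
  rcases (Real.sqrt_nonneg (W ^ 2 + E ^ 2)).eq_or_lt with h0 | h0
  · have hR00 : R = 0 := by rw [hR]; exact h0.symm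
    rw [← hR2, hR00]
    have := sq_nonneg (lam h / 2)
    linarith
  · have hR0 : 0 < R := h0
    have hx : E / R ≤ 1 := by
      rw [div_le_one hR0]
      exact Real.le_sqrt_of_sq_le (by nlinarith)
    have hx0 : 0 ≤ E / R := by positivity
    have h1 := rhombus0 arc hs ha (φ := Real.arccos (E / R)) (Real.arccos_nonneg _)
      (Real.arccos_le_pi_div_two.mpr hx0)
    rw [Real.cos_arccos (by linarith) hx, Real.sin_arccos] at h1
    have h2 : Real.sqrt (1 - (E / R) ^ 2) = W / R := by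
      rw [show 1 - (E / R) ^ 2 = (W / R) ^ 2 by
        field_simp
        linarith only [hR2], Real.sqrt_sq (by positivity)]
    rw [h2, ← hW, ← hE] at h1
    have h3 : 2 * R ≤ lam h := by
      calc 2 * R = 2 * (R ^ 2 / R) := by field_simp
        _ = 2 * (W / R) * W + 2 * (E / R) * E := by rw [hR2]; ring
        _ ≤ lam h := h1
    rw [← hR2]
    nlinarith only [h3, h0]

/-- translation of the body -/
lemma VX_tr (X : Finset HP) (h : ℂ → ℝ) (x : ℂ) : VX X (fun w => h w + ip w x) = VX X h := by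
  unfold VX
  congr 1
  have : {y : ℂ | ∀ s ∈ X, ip s.1 y ≤ s.2 - (h s.1 + ip s.1 x)} =
      (fun y => y + x) ⁻¹' {y : ℂ | ∀ s ∈ X, ip s.1 y ≤ s.2 - h s.1} := by
    ext y
    simp only [Set.mem_setOf_eq, Set.mem_preimage]
    refine forall₂_congr fun s _ => ?_
    rw [ipc_add]
    constructor <;> intro h1 <;> linarith
  rw [this, measure_preimage_add_right]

lemma region_closed (X : Finset HP) (h : ℂ → ℝ) :
    IsClosed {y : ℂ | ∀ s ∈ X, ip s.1 y ≤ s.2 - h s.1} := by
  have : {y : ℂ | ∀ s ∈ X, ip s.1 y ≤ s.2 - h s.1} = ⋂ s ∈ X, {y : ℂ | ip s.1 y ≤ s.2 - h s.1} := by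
    ext y; simp
  rw [this]
  exact isClosed_biInter fun s _ => isClosed_le (ipc_cont s.1) continuous_const

/-- upper bound for the area -/
lemma VX_hi {X : Finset HP} (hX : Bornology.IsBounded (Cl X)) : ∃ l : ℝ, 0 ≤ l ∧
    ∀ (L : ℝ) (a a' : HP), a ∈ X → a' ∈ X → ‖a.1‖ = 1 → a'.1 = -a.1 → a.2 + a'.2 = L / 2 →
      ∀ h : ℂ → ℝ, (∀ s ∈ X, 0 ≤ h s.1) → h a.1 + h a'.1 ≤ L / 2 →
        VX X h ≤ (L / 2 - (h a.1 + h a'.1)) * l := by
  obtain ⟨ρ, hρ0, hρ⟩ := hX.exists_pos_norm_le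
  refine ⟨2 * ρ, by positivity, ?_⟩
  intro L a a' ha ha' hu hopp hd h h0 hw
  have hsub : {y : ℂ | ∀ s ∈ X, ip s.1 y ≤ s.2 - h s.1} ⊆
      {x : ℂ | ip a.1 x ∈ Set.Icc (a.2 - L / 2 + h a'.1) (a.2 - h a.1) ∧
        ip (a.1 * I) x ∈ Set.Icc (-ρ) ρ} := by
    intro y hy
    have h1 := hy a ha
    have h2 := hy a' ha'
    rw [hopp, ipc_neg_left, ← hopp] at h2
    have h3 : y ∈ Cl X := fun s hs => (hy s hs).trans (by linarith [h0 s hs])
    have h4 := hρ y h3
    have h5 : |ip (a.1 * I) y| ≤ ρ := by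
      have e := ipc_dec hu y y
      have e2 : ip y y = ‖y‖ ^ 2 := by
        rw [Complex.sq_norm, Complex.normSq_apply]; rfl
      have e3 : ip y a.1 = ip a.1 y := by unfold ip; ring
      have e4 : ip y (a.1 * I) = ip (a.1 * I) y := by unfold ip; ring
      rw [e2, e3, e4] at e
      have : (ip (a.1 * I) y) ^ 2 ≤ ρ ^ 2 := by nlinarith only [e, h4, norm_nonneg y, mul_self_nonneg (ip a.1 y)]
      exact abs_le_of_sq_le_sq this hρ0.le
    exact ⟨⟨by linarith, by linarith⟩, abs_le.mp h5⟩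
  have hfin : volume {x : ℂ | ip a.1 x ∈ Set.Icc (a.2 - L / 2 + h a'.1) (a.2 - h a.1) ∧
        ip (a.1 * I) x ∈ Set.Icc (-ρ) ρ} ≠ ⊤ := by
    rw [vol_rect hu]
    exact ENNReal.mul_ne_top ENNReal.ofReal_ne_top ENNReal.ofReal_ne_top
  unfold VX
  refine (ENNReal.toReal_mono hfin (measure_mono hsub)).trans ?_
  rw [vol_rect hu, ENNReal.toReal_mul, ENNReal.toReal_ofReal (by linarith),
    ENNReal.toReal_ofReal (by linarith)]
  apply le_of_eq
  ring

/-- lower bound for the area -/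
lemma VX_lo {X : Finset HP} (hX : Bornology.IsBounded (Cl X)) {L : ℝ} {a : HP} (hu : ‖a.1‖ = 1)
    {P0 P1 : ℂ} {β0 β1 : ℝ} (hP0 : P0 ∈ Cl X) (hP1 : P1 ∈ Cl X)
    (hQ0 : P0 - ((L / 2 : ℝ) : ℂ) * a.1 ∈ Cl X) (hQ1 : P1 - ((L / 2 : ℝ) : ℂ) * a.1 ∈ Cl X)
    (ha0 : ip a.1 P0 = a.2) (ha1 : ip a.1 P1 = a.2) (hb0 : ip (a.1 * I) P0 = β0)
    (hb1 : ip (a.1 * I) P1 = β1) {h : ℂ → ℝ} (hs : Sublin h) (h0 : ∀ s ∈ X, 0 ≤ h s.1)
    (hw : h a.1 + h (-a.1) ≤ L / 2) (he : h (a.1 * I) + h (-(a.1 * I)) ≤ β1 - β0) :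
    (L / 2 - (h a.1 + h (-a.1))) * (β1 - β0 - (h (a.1 * I) + h (-(a.1 * I)))) ≤ VX X h := by
  have hsub : {x : ℂ | ip a.1 x ∈ Set.Icc (a.2 - L / 2 + h (-a.1)) (a.2 - h a.1) ∧
        ip (a.1 * I) x ∈ Set.Icc (β0 + h (-(a.1 * I))) (β1 - h (a.1 * I))} ⊆
      {y : ℂ | ∀ s ∈ X, ip s.1 y ≤ s.2 - h s.1} := by
    rintro z ⟨⟨z1, z2⟩, z3, z4⟩ r hr
    have c1 := hP0 r hr
    have c2 := hP1 r hr
    have c3 := hQ0 r hr
    have c4 := hQ1 r hr
    set p := ip r.1 a.1 with hp
    set t := ip r.1 (a.1 * I) with ht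
    have eP0 : ip r.1 P0 = p * a.2 + t * β0 := by rw [ipc_dec hu r.1 P0, ha0, hb0]
    have eP1 : ip r.1 P1 = p * a.2 + t * β1 := by rw [ipc_dec hu r.1 P1, ha1, hb1]
    rw [ipc_sub, ipc_mul_right, eP0] at c3
    rw [ipc_sub, ipc_mul_right, eP1] at c4
    rw [eP0] at c1
    rw [eP1] at c2
    have ez : ip r.1 z = p * ip a.1 z + t * ip (a.1 * I) z := ipc_dec hu r.1 z
    rw [ez]
    -- the support function of the body at `r`
    have hr1 : ∀ (P T : ℝ) (u v : ℂ), 0 ≤ P → 0 ≤ T → r.1 = (P : ℂ) * u + (T : ℂ) * v →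
        h r.1 ≤ P * h u + T * h v := by
      intro P T u v hP hT he
      rw [he]
      refine (hs.1 _ _).trans ?_
      rw [hs.2 _ _ hP, hs.2 _ _ hT]
    have hdec := vec_dec hu r.1
    rw [← hp, ← ht] at hdec
    rcases le_total 0 p with hp0 | hp0 <;> rcases le_total 0 t with ht0 | ht0
    · have hh := hr1 p t a.1 (a.1 * I) hp0 ht0 hdec
      have m1 := mul_le_mul_of_nonneg_left z2 hp0
      have m2 := mul_le_mul_of_nonneg_left z4 ht0
      linarith only [c2, hh, m1, m2]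
    · have hh := hr1 p (-t) a.1 (-(a.1 * I)) hp0 (by linarith) (by rw [hdec]; push_cast; ring)
      have m1 := mul_le_mul_of_nonneg_left z2 hp0
      have m2 := mul_le_mul_of_nonneg_left z3 (by linarith : 0 ≤ -t)
      linarith only [c1, hh, m1, m2]
    · have hh := hr1 (-p) t (-a.1) (a.1 * I) (by linarith) ht0 (by rw [hdec]; push_cast; ring)
      have m1 := mul_le_mul_of_nonneg_left z1 (by linarith : 0 ≤ -p)
      have m2 := mul_le_mul_of_nonneg_left z4 ht0
      linarith only [c4, hh, m1, m2]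
    · have hh := hr1 (-p) (-t) (-a.1) (-(a.1 * I)) (by linarith) (by linarith)
        (by rw [hdec]; push_cast; ring)
      have m1 := mul_le_mul_of_nonneg_left z1 (by linarith : 0 ≤ -p)
      have m2 := mul_le_mul_of_nonneg_left z3 (by linarith : 0 ≤ -t)
      linarith only [c3, hh, m1, m2]
  have hfin : volume {y : ℂ | ∀ s ∈ X, ip s.1 y ≤ s.2 - h s.1} ≠ ⊤ := by
    have hb : Bornology.IsBounded {y : ℂ | ∀ s ∈ X, ip s.1 y ≤ s.2 - h s.1} :=
      hX.subset fun y hy s hs => (hy s hs).trans (by linarith [h0 s hs])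
    exact hb.measure_lt_top.ne
  unfold VX
  refine le_trans (le_of_eq ?_) (ENNReal.toReal_mono hfin (measure_mono hsub))
  rw [vol_rect hu, ENNReal.toReal_mul, ENNReal.toReal_ofReal (by linarith),
    ENNReal.toReal_ofReal (by linarith)]
  ring

end Pool.Agent.XQ.H81
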