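import Pool.Agent.Helper16_XQ.StmtD

/-! Squad XQ, module KEY, part A: orders of magnitude. -/

set_option autoImplicit false

namespace Pool.Agent.XQ.H81

open MeasureTheory Complex Filter Topology Pool.Agent.XQ

/-- lower bound of the order `κ^(1/2)` -/
def LB (L : ℝ) (f : ℝ → ℝ) : Prop := ∃ c κ0 : ℝ, 0 < c ∧ 0 < κ0 ∧
  ∀ κ : ℝ, κ0 ≤ κ → c * κ ^ (1 / 2 : ℝ) * Real.exp (-(L * κ)) ≤ f κ

lemma LB.ne {L : ℝ} {f : ℝ → ℝ} (h : LB L f) (h0 : f = 0) : False := by
  obtain ⟨c, κ0, hc, hκ, hf⟩ := h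
  have h1 := hf κ0 le_rfl
  rw [h0] at h1
  have : 0 < c * κ0 ^ (1 / 2 : ℝ) * Real.exp (-(L * κ0)) := by positivity
  exact absurd h1 (not_le.mpr this)

lemma LB.add {L : ℝ} {f g : ℝ → ℝ} (h : LB L f) (h' : LB L g) : LB L fun κ => f κ + g κ := by
  obtain ⟨c, κ0, hc, hκ, hf⟩ := h
  obtain ⟨c', κ0', hc', hκ', hf'⟩ := h'
  refine ⟨c + c', max κ0 κ0', by linarith, lt_max_of_lt_left hκ, fun κ hκ => ?_⟩
  have h1 := hf κ ((le_max_left _ _).trans hκ)
  have h2 := hf' κ ((le_max_right _ _).trans hκ)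
  calc (c + c') * κ ^ (1 / 2 : ℝ) * Real.exp (-(L * κ))
      = c * κ ^ (1 / 2 : ℝ) * Real.exp (-(L * κ)) + c' * κ ^ (1 / 2 : ℝ) * Real.exp (-(L * κ)) := by
        ring
    _ ≤ _ := add_le_add h1 h2

lemma lb_sum {L : ℝ} {ι : Type} (s : Finset ι) (f : ι → ℝ → ℝ) (h : ∀ i ∈ s, LB L (f i)) :
    s = ∅ ∨ LB L fun κ => ∑ i ∈ s, f i κ := by
  classical
  induction s using Finset.induction_on with
  | empty => exact Or.inl rfl
  | insert a s ha ih =>
    right
    have h1 := h a (Finset.mem_insert_self a s)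
    rcases ih fun i hi => h i (Finset.mem_insert_of_mem hi) with h2 | h2
    · rw [h2]
      simpa using h1
    · simpa [Finset.sum_insert ha] using h1.add h2

lemma ord_ne {L p : ℝ} {f : ℝ → ℝ} (h : Ord L p f) (h0 : f = 0) : False := by
  obtain ⟨c, C, κ0, hc, hC, hκ, hf⟩ := h
  have h1 := (hf κ0 le_rfl).1
  rw [h0] at h1
  have : 0 < c * κ0 ^ (-p) * Real.exp (-(L * κ0)) := by positivity
  exact absurd h1 (not_le.mpr this)

lemma ord_add {L p : ℝ} {f g : ℝ → ℝ} (h : Ord L p f) (h' : Ord L p g) :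
    Ord L p fun κ => f κ + g κ := by
  obtain ⟨c, C, κ0, hc, hC, hκ, hf⟩ := h
  obtain ⟨c', C', κ0', hc', hC', hκ', hf'⟩ := h'
  refine ⟨c + c', C + C', max κ0 κ0', by linarith, by linarith, lt_max_of_lt_left hκ,
    fun κ hκ => ?_⟩
  have h1 := hf κ ((le_max_left _ _).trans hκ)
  have h2 := hf' κ ((le_max_right _ _).trans hκ)
  constructor
  · calc (c + c') * κ ^ (-p) * Real.exp (-(L * κ))
        = c * κ ^ (-p) * Real.exp (-(L * κ)) + c' * κ ^ (-p) * Real.exp (-(L * κ)) := by ring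
      _ ≤ _ := add_le_add h1.1 h2.1
  · calc f κ + g κ ≤ C * κ ^ (-p) * Real.exp (-(L * κ)) + C' * κ ^ (-p) * Real.exp (-(L * κ)) :=
          add_le_add h1.2 h2.2
      _ = _ := by ring

lemma ord_sum {L p : ℝ} {ι : Type} (s : Finset ι) (f : ι → ℝ → ℝ) (h : ∀ i ∈ s, Ord L p (f i)) :
    s = ∅ ∨ Ord L p fun κ => ∑ i ∈ s, f i κ := by
  classical
  induction s using Finset.induction_on with
  | empty => exact Or.inl rfl
  | insert a s ha ih =>
    right
    have h1 := h a (Finset.mem_insert_self a s)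
    rcases ih fun i hi => h i (Finset.mem_insert_of_mem hi) with h2 | h2
    · rw [h2]
      simpa using h1
    · simpa [Finset.sum_insert ha] using ord_add h1 h2

lemma pow_le_pow {κ : ℝ} (h : 1 ≤ κ) : κ ^ (-(2 : ℝ)) ≤ κ ^ (-(1 : ℝ)) :=
  Real.rpow_le_rpow_of_exponent_le h (by norm_num)

lemma ord_12_add {L : ℝ} {f g : ℝ → ℝ} (h : Ord L 1 f) (h' : Ord L 2 g) :
    Ord L 1 fun κ => f κ + g κ := by
  obtain ⟨c, C, κ0, hc, hC, hκ, hf⟩ := h
  obtain ⟨c', C', κ0', hc', hC', hκ', hf'⟩ := h'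
  refine ⟨c, C + C', max 1 (max κ0 κ0'), hc, by linarith, by positivity, fun κ hκ => ?_⟩
  have k1 : 1 ≤ κ := (le_max_left _ _).trans hκ
  have k2 : κ0 ≤ κ := ((le_max_left _ _).trans (le_max_right _ _)).trans hκ
  have k3 : κ0' ≤ κ := ((le_max_right _ _).trans (le_max_right _ _)).trans hκ
  have h1 := hf κ k2
  have h2 := hf' κ k3
  have h3 := pow_le_pow k1
  have h0 : 0 < κ := by linarith
  constructor
  · have : 0 ≤ g κ := le_trans (by positivity) h2.1
    linarith [h1.1]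
  · have h4 : C' * κ ^ (-(2 : ℝ)) * Real.exp (-(L * κ)) ≤ C' * κ ^ (-(1 : ℝ)) * Real.exp (-(L * κ)) := by
      gcongr
    calc f κ + g κ ≤ C * κ ^ (-(1 : ℝ)) * Real.exp (-(L * κ)) + C' * κ ^ (-(1 : ℝ)) * Real.exp (-(L * κ)) :=
          add_le_add h1.2 (h2.2.trans h4)
      _ = _ := by ring

lemma ord_12_sub {L : ℝ} {f g : ℝ → ℝ} (h : Ord L 1 f) (h' : Ord L 2 g) :
    Ord L 1 fun κ => f κ - g κ := by
  obtain ⟨c, C, κ0, hc, hC, hκ, hf⟩ := h
  obtain ⟨c', C', κ0', hc', hC', hκ', hf'⟩ := h'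
  refine ⟨c / 2, C, max (2 * C' / c) (max κ0 κ0'), by linarith, hC, by positivity, fun κ hκ => ?_⟩
  have k1 : 2 * C' / c ≤ κ := (le_max_left _ _).trans hκ
  have k2 : κ0 ≤ κ := ((le_max_left _ _).trans (le_max_right _ _)).trans hκ
  have k3 : κ0' ≤ κ := ((le_max_right _ _).trans (le_max_right _ _)).trans hκ
  have h1 := hf κ k2
  have h2 := hf' κ k3
  have h0 : 0 < κ := by linarith
  constructor
  · have e1 : κ ^ (-(2 : ℝ)) = κ ^ (-(1 : ℝ)) * κ⁻¹ := by
      rw [← Real.rpow_neg_one κ, ← Real.rpow_add h0]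
      norm_num
    have h3 : C' * κ⁻¹ ≤ c / 2 := by
      rw [div_le_iff₀ hc] at k1
      rw [← div_eq_mul_inv, div_le_iff₀ h0]
      linarith
    have h4 : C' * κ ^ (-(2 : ℝ)) * Real.exp (-(L * κ)) ≤
        (c / 2) * κ ^ (-(1 : ℝ)) * Real.exp (-(L * κ)) := by
      rw [e1]
      calc C' * (κ ^ (-(1 : ℝ)) * κ⁻¹) * Real.exp (-(L * κ))
          = (C' * κ⁻¹) * (κ ^ (-(1 : ℝ)) * Real.exp (-(L * κ))) := by ring
        _ ≤ (c / 2) * (κ ^ (-(1 : ℝ)) * Real.exp (-(L * κ))) :=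
            mul_le_mul_of_nonneg_right h3 (by positivity)
        _ = _ := by ring
    have h5 := h1.1
    have h6 := h2.2
    calc (c / 2) * κ ^ (-(1 : ℝ)) * Real.exp (-(L * κ))
        = c * κ ^ (-(1 : ℝ)) * Real.exp (-(L * κ)) - (c / 2) * κ ^ (-(1 : ℝ)) * Real.exp (-(L * κ)) := by
          ring
      _ ≤ f κ - g κ := by linarith
  · have : 0 ≤ g κ := le_trans (by positivity) h2.1
    linarith [h1.2]

/-- torn bodies of the types III and IV -/
lemma tornT {L : ℝ} {ι : Type} (s3 s4 sQ : Finset ι) (x y : ι → ℝ → ℝ) (σ : ι → ℝ)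
    (h3 : ∀ F ∈ s3, Ord L 1 (x F)) (h4 : ∀ F ∈ s4, Ord L 2 (x F)) (hQ : ∀ F ∈ sQ, Ord L 1 (y F))
    (hσ : ∀ F, σ F = 1 ∨ σ F = -1) (hσ4 : ∀ F ∈ s4, σ F = -1)
    (h31 : ∀ F ∈ s3, ∀ F' ∈ s3, F = F') (h3Q : sQ.Nonempty → s3 = ∅) (T : ℝ → ℝ)
    (hT : T = fun κ => ∑ F ∈ s3, σ F * x F κ + ∑ F ∈ s4, σ F * x F κ - ∑ F ∈ sQ, y F κ) :
    (T = 0 ∨ Ord L 1 T ∨ Ord L 1 (-T) ∨ Ord L 2 T ∨ Ord L 2 (-T)) ∧
      (T = 0 → s3 = ∅ ∧ s4 = ∅ ∧ sQ = ∅) := by
  classical
  have e4 : ∀ κ, ∑ F ∈ s4, σ F * x F κ = -∑ F ∈ s4, x F κ := by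
    intro κ
    rw [← Finset.sum_neg_distrib]
    refine Finset.sum_congr rfl fun F hF => ?_
    rw [hσ4 F hF]; ring
  have hs4 := ord_sum s4 x h4
  have hsQ := ord_sum sQ y hQ
  -- if one of the orders holds, then `T ≠ 0`
  have fin : (Ord L 1 T ∨ Ord L 1 (-T) ∨ Ord L 2 T ∨ Ord L 2 (-T)) →
      (T = 0 ∨ Ord L 1 T ∨ Ord L 1 (-T) ∨ Ord L 2 T ∨ Ord L 2 (-T)) ∧
      (T = 0 → s3 = ∅ ∧ s4 = ∅ ∧ sQ = ∅) := by
    intro h
    refine ⟨Or.inr h, fun h0 => ?_⟩
    exfalso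
    rcases h with h | h | h | h
    · exact ord_ne h h0
    · exact ord_ne h (by rw [h0, neg_zero])
    · exact ord_ne h h0
    · exact ord_ne h (by rw [h0, neg_zero])
  rcases hsQ with hsQ | hsQ
  · -- `sQ` empty
    rcases s3.eq_empty_or_nonempty with h30 | ⟨F0, hF0⟩
    · rcases hs4 with hs4 | hs4
      · have : T = 0 := by
          rw [hT, h30, hs4, hsQ]
          funext κ
          simp
        exact ⟨Or.inl this, fun _ => ⟨h30, hs4, hsQ⟩⟩
      · refine fin (Or.inr (Or.inr (Or.inr ?_)))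
        have : -T = fun κ => ∑ F ∈ s4, x F κ := by
          rw [hT, h30, hsQ]
          funext κ
          simp only [Pi.neg_apply, Finset.sum_empty, e4]
          ring
        rw [this]
        exact hs4
    · have h3e : s3 = {F0} := by
        ext F
        rw [Finset.mem_singleton]
        exact ⟨fun h => h31 F h F0 hF0, fun h => h ▸ hF0⟩
      have hx := h3 F0 hF0
      rcases hσ F0 with hσ0 | hσ0
      · refine fin (Or.inl ?_)
        have : T = fun κ => x F0 κ - ∑ F ∈ s4, x F κ := by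
          rw [hT, h3e, hsQ]
          funext κ
          simp only [Finset.sum_empty, e4, Finset.sum_singleton, hσ0]
          ring
        rw [this]
        rcases hs4 with hs4 | hs4
        · rw [hs4]
          simpa using hx
        · exact ord_12_sub hx hs4
      · refine fin (Or.inr (Or.inl ?_))
        have : -T = fun κ => x F0 κ + ∑ F ∈ s4, x F κ := by
          rw [hT, h3e, hsQ]
          funext κ
          simp only [Pi.neg_apply, Finset.sum_empty, e4, Finset.sum_singleton, hσ0]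
          ring
        rw [this]
        rcases hs4 with hs4 | hs4
        · rw [hs4]
          simpa using hx
        · exact ord_12_add hx hs4
  · -- `sQ` nonempty
    have hne : sQ.Nonempty := by
      rw [Finset.nonempty_iff_ne_empty]
      rintro rfl
      refine ord_ne hsQ ?_
      funext κ
      simp
    have h30 := h3Q hne
    refine fin (Or.inr (Or.inl ?_))
    have : -T = fun κ => ∑ F ∈ sQ, y F κ + ∑ F ∈ s4, x F κ := by
      rw [hT, h30]
      funext κ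
      simp only [Pi.neg_apply, Finset.sum_empty, e4]
      ring
    rw [this]
    rcases hs4 with hs4 | hs4
    · rw [hs4]
      simpa using hsQ
    · exact ord_12_add hsQ hs4

end Pool.Agent.XQ.H81
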